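import Pool.Agent.L0h7.TC.Maps2

set_option autoImplicit false
set_option linter.unusedSectionVars false

/-! Second Betti numbers of covers of 2-dimensional complexes and kernel dimensions. -/

namespace Pool.Agent.L0h7.TC

open Matrix TH57.Thr.Ati Pool.Agent.R719.AT Pool.Agent.R472.Grid Pool.Agent.Y477.AV
open Pool.Agent.W656.VA (Val kerDim exists_kerDim val_kerDim base_change gap_val IsLcm)
open Pool.Agent.L0h7.CG (cover nullity Good good_of_rat good_of_val)

/-- A finite connected complex all of whose edges lie in two or three triangles, with voltages. -/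
def Good2 {G : Type} [Group G] {X : Type} (K : Set (Set X)) (γ : X → X → G) : Prop :=
  (∀ T ∈ K, T.ncard = 3) ∧
  (∀ u v w, ({u, v, w} : Set X) ∈ K → 2 ≤ {x | ({u, v, x} : Set X) ∈ K}.ncard ∧
    {x | ({u, v, x} : Set X) ∈ K}.ncard ≤ 3) ∧
  (∀ u v, γ v u = (γ u v)⁻¹) ∧ (∀ u v w, ({u, v, w} : Set X) ∈ K → γ u v * γ v w = γ u w) ∧
  (edgeGraph K).Connected ∧ (Group.FG G → (cover (edgeGraph K) γ).Connected)

section
variable {G V : Type} [Group G] [Fintype V] [DecidableEq V] {n : V → Fin 3 → V}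

theorem GG_inv {γ : V → V → G} (hγ : ∀ v w, γ w v = (γ v w)⁻¹) (x y : V × Fin 16) :
    GG γ y x = (GG γ x y)⁻¹ := by
  unfold GG
  by_cases h : x.1 = y.1
  · rw [if_pos h, if_pos h.symm, inv_one]
  · rw [if_neg h, if_neg (fun h' => h h'.symm), hγ]

theorem GG_tri (hn : Nb n) {γ : V → V → G} (hγ : ∀ v w, γ w v = (γ v w)⁻¹) {x y z : V × Fin 16}
    (h : ({x, y, z} : Set (V × Fin 16)) ∈ KK n) : GG γ x y * GG γ y z = GG γ x z := by
  obtain ⟨v, a, b, c, hc, rfl, rfl, rfl⟩ := (mem_KK hn).1 h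
  have h1 := GG_chart hn hγ v hc
  have h2 := GG_chart hn hγ v (th_swap' (th_swap hc))
  have h3 := GG_chart hn hγ v (th_swap' hc)
  have h4 : out n γ v a * (GG γ (phi n v a) (phi n v b) * GG γ (phi n v b) (phi n v c)) =
      out n γ v a * GG γ (phi n v a) (phi n v c) := by
    rw [← mul_assoc, h1, h2, h3]
  exact mul_left_cancel h4

/-- the neighbours in a cubic graph -/
theorem exists_nb (Q : SimpleGraph V) (h : ∀ v, (Q.neighborSet v).ncard = 3) :
    ∃ n : V → Fin 3 → V, Nb n ∧ ∀ v w, Q.Adj v w ↔ ∃ k, n v k = w := by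
  let e : ∀ v, (Q.neighborSet v) ≃ Fin 3 := fun v => Finite.equivFinOfCardEq (h v)
  have hQ : ∀ v w, Q.Adj v w ↔ ∃ k, (((e v).symm k : Q.neighborSet v) : V) = w := by
    intro v w
    constructor
    · intro h
      exact ⟨e v ⟨w, h⟩, by rw [Equiv.symm_apply_apply]⟩
    · rintro ⟨k, rfl⟩
      exact ((e v).symm k).2
  refine ⟨fun v k => (((e v).symm k : Q.neighborSet v) : V), ⟨?_, ?_, ?_⟩, hQ⟩
  · intro v k l hkl
    exact (e v).symm.injective (Subtype.ext hkl)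
  · intro v k hk
    exact ((hQ v _).2 ⟨k, rfl⟩).ne hk.symm
  · intro v k
    exact (hQ _ v).1 ((hQ v _).2 ⟨k, rfl⟩).symm

end

section
variable (hd : S_DEG) (hc : S_CONN) (hc0 : S_CONN0)
include hd hc hc0

theorem good2_of_good {G V : Type} [Group G] [Fintype V] (Q : SimpleGraph V) (γ : V → V → G)
    (h : Good Q γ) : ∃ (X : Type) (_ : Fintype X) (K : Set (Set X)) (Γ : X → X → G),
      Good2 K Γ ∧ betti2 K Γ = nullity (cover Q γ) := by
  classical
  obtain ⟨h1, h2, h3, h4⟩ := h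
  obtain ⟨n, hn, hQ⟩ := exists_nb Q h2
  refine ⟨V × Fin 16, inferInstance, KK n, GG γ, ⟨KK_card hn, hd V n hn, GG_inv h3,
    fun _ _ _ h => GG_tri hn h3 h, hc0 V n Q hn hQ h1, fun hf => hc G V n Q γ hn hQ h3 (h4 hf)⟩,
    betti_nullity hn Q hQ γ h3⟩

variable {G : Type} [Group G]

theorem good2_of_rat {m n : ℕ} (A : Matrix (Fin m) (Fin n) (G →₀ ℂ))
    (hA : ∀ i j g, ∃ q : ℚ, A i j g = q) :
    ∃ (X : Type) (_ : Fintype X) (K : Set (Set X)) (Γ : X → X → G),
      Good2 K Γ ∧ betti2 K Γ = kerDim A := by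
  obtain ⟨V, i, Q, γ, h, h5⟩ := good_of_rat A hA
  rw [← h5]
  exact good2_of_good hd hc hc0 Q γ h

theorem good2_of_val {v : ℝ} (hv : Val (Int.castRingHom ℂ).range G v) :
    ∃ (X : Type) (_ : Fintype X) (K : Set (Set X)) (Γ : X → X → G),
      Good2 K Γ ∧ betti2 K Γ = v := by
  obtain ⟨V, i, Q, γ, h, h5⟩ := good_of_val hv
  rw [← h5]
  exact good2_of_good hd hc hc0 Q γ h

end

theorem betti_two_tf {G : Type} [Group G] (hG : TorsionFree G) {X : Type} [Fintype X]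
    (K : Set (Set X)) (γ : X → X → G) (hK : ∀ T ∈ K, T.ncard = 3)
    (h2 : ∀ u v, u ≠ v → {w | ({u, v, w} : Set X) ∈ K}.ncard ≤ 2) :
    ∃ z : ℤ, betti2 K γ = z := by
  classical
  obtain ⟨n, H, hH, h⟩ := betti_two K γ hK h2
  have h1 : ∀ i, Nat.card (H i) = 1 := fun i => by
    have := (W656.VA.isLcm_one hG).2.1 (H i) (hH i)
    exact Nat.dvd_one.1 this
  refine ⟨n, ?_⟩
  rw [h]
  simp [h1]

section
variable (hd : S_DEG) (hc : S_CONN) (hc0 : S_CONN0)
include hd hc hc0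

/-- the equivalence for closed classes of torsion-free groups -/
theorem tfae_class {C : (G : Type) → [Group G] → Prop} (hC : ClosedClass C) : List.TFAE [
    ∀ (G : Type) [Group G], C G → ∀ (m n : ℕ) (A : Matrix (Fin m) (Fin n) (G →₀ ℂ)),
      ∃ z : ℤ, kerDim A = z,
    ∀ (G : Type) [Group G], C G → Group.FG G → ∀ (X : Type) [Fintype X] (K : Set (Set X))
      (γ : X → X → G), Good2 K γ → ∃ z : ℤ, betti2 K γ = z,
    ∃ r : ℝ, 0 ≤ r ∧ ∀ (G : Type) [Group G], C G → Group.FG G → ∀ (X : Type) [Fintype X]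
      (K : Set (Set X)) (γ : X → X → G), Good2 K γ → betti2 K γ ≠ r] := by
  classical
  tfae_have 1 → 2 := by
    intro h G _ hG _ X _ K γ hQ
    obtain ⟨m, n, A, _, hA⟩ := kerDim_of_betti K γ
    obtain ⟨z, hz⟩ := h G hG m n A
    exact ⟨z, by rw [← hA, hz]⟩
  tfae_have 2 → 3 := by
    intro h
    refine ⟨1 / 2, by norm_num, ?_⟩
    intro G _ hG hf X _ K γ hQ hr
    obtain ⟨z, hz⟩ := h G hG hf X K γ hQ
    rw [hr] at hz
    have h1 : (2 * z : ℝ) = 1 := by linarith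
    have h2 : 2 * z = 1 := by exact_mod_cast h1
    omega
  tfae_have 3 → 1 := by
    rintro ⟨r, hr, h⟩
    by_contra hno
    obtain ⟨H, _, hH, hv⟩ := all_values hC hno r hr
    obtain ⟨K, hK, m, n, A, hA, hAv⟩ := TH25.AD.fg_val_sub hv
    have hv' : Val (Int.castRingHom ℂ).range K r := by
      refine ⟨m, n, A, fun k i g => ?_, hAv⟩
      obtain ⟨z, hz⟩ := Subring.mem_bot.1 (hA k i g)
      exact ⟨z, hz⟩
    obtain ⟨X, i, L, γ, hQ, hn⟩ := good2_of_val hd hc hc0 hv'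
    exact h K (hC.subgroup K H K.subtype K.subtype_injective hH) hK X L γ hQ hn
  tfae_finish

/-- every nonnegative real number -/
theorem all_real (r : ℝ) (hr : 0 ≤ r) :
    ∃ (G : Type) (_ : Group G), Group.FG G ∧ Group.IsSolvable G ∧
      (∀ g : G, IsOfFinOrder g → g ^ 2 = 1) ∧
      ∃ (X : Type) (_ : Fintype X) (K : Set (Set X)) (γ : X → X → G), Good2 K γ ∧
        betti2 K γ = r := by
  obtain ⟨K, iK, h1, h2, h3, h4⟩ := val_fg r hr
  refine ⟨K, iK, h1, h2, ?_, good2_of_val hd hc hc0 h4⟩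
  intro g hg
  obtain ⟨m, hm, hg⟩ := isOfFinOrder_iff_pow_eq_one.1 hg
  exact h3 g m hm hg

/-- the equivalence for bounded torsion -/
theorem gap_class (C : (G : Type) → [Group G] → Prop)
    (hprod : ∀ (G H : Type) [Group G] [Group H], C G → C H → C (G × H))
    (hfree : ∀ (G : Type) [Group G] (m : ℕ), C G → C (Monoid.Coprod G (FreeGroup (Fin m)))) :
    (∀ (G : Type) [Group G], C G → ∀ d : ℕ, IsLcm G d →
      ∀ (m n : ℕ) (A : Matrix (Fin m) (Fin n) (G →₀ ℂ)), ∃ z : ℤ, (d : ℝ) * kerDim A = z) ↔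
    ∃ a b : ℝ, 0 ≤ a ∧ a < b ∧ ∀ (G : Type) [Group G], C G → ∀ d : ℕ, IsLcm G d →
      ∀ (X : Type) [Fintype X] (K : Set (Set X)) (γ : X → X → G), Good2 K γ →
        ¬ (a < (d : ℝ) * betti2 K γ ∧ (d : ℝ) * betti2 K γ < b) := by
  classical
  constructor
  · intro h
    refine ⟨0, 1, le_rfl, one_pos, ?_⟩
    rintro G _ hG d hd X _ K γ hQ ⟨h1, h2⟩
    obtain ⟨m, n, A, _, hA⟩ := kerDim_of_betti K γ
    obtain ⟨z, hz⟩ := h G hG d hd m n A
    rw [← hA, hz] at h1 h2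
    have h3 : 0 < z := by exact_mod_cast h1
    have h4 : z < 1 := by exact_mod_cast h2
    omega
  · rintro ⟨a, b, ha, hab, h⟩ G _ hG d hd' m n A
    have hR : ∀ (G : Type) [Group G], C G → ∀ d : ℕ, IsLcm G d → ∀ v : ℝ,
        Val (Int.castRingHom ℂ).range G v → ∃ z : ℤ, (d : ℝ) * v = z := by
      intro G _ hG d hd' v hv
      refine gap_val C hprod hfree (Int.castRingHom ℂ).range a b ha hab ?_ G hG d hd' v hv
      intro H _ hH e he v hv
      obtain ⟨X, i, K, γ, hQ, rfl⟩ := good2_of_val hd hc hc0 hv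
      exact h H hH e he X K γ hQ
    exact base_change C hprod hfree _ hR ⊤ G hG d hd' _
      (val_kerDim A (fun _ _ _ => Subring.mem_top _))

end

end Pool.Agent.L0h7.TC
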