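import Pool.Agent.L0h7.TC.Defs

set_option autoImplicit false
set_option linter.unusedSectionVars false

/-! Complexes with at most two triangles at every edge. -/

namespace Pool.Agent.L0h7.TC

open Matrix TH57.Thr.Ati Pool.Agent.R719.AT Pool.Agent.R472.Grid Pool.Agent.W649.ZL

section
variable {G : Type} [Group G] {K L Θ : Type} [Fintype K] [Fintype L]
  [DecidableEq K] [DecidableEq L] [Fintype Θ]

theorem tm_two (row : L → Θ → K) (s : L → Θ → G) (c : L → Θ → ℤ) (j : L)
    (hc : ∀ τ, c j τ = 0 ∨ c j τ = 1)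
    (hi : ∀ τ τ', c j τ ≠ 0 → c j τ' ≠ 0 → row j τ = row j τ' → τ = τ') (k : K) :
    (tm row s c k j = 0 ∨ Uni (tm row s c k j)) ∧
      (tm row s c k j ≠ 0 → ∃ τ, c j τ ≠ 0 ∧ row j τ = k) := by
  classical
  unfold tm
  rw [Matrix.of_apply]
  by_cases h : ∃ τ, c j τ ≠ 0 ∧ row j τ = k
  · obtain ⟨τ, h1, h2⟩ := h
    refine ⟨Or.inr ?_, fun _ => ⟨τ, h1, h2⟩⟩
    rw [Finset.sum_eq_single τ]
    · rw [if_pos h2]
      rcases hc τ with h3 | h3
      · exact absurd h3 h1
      · rw [h3, Int.cast_one]
        exact ⟨_, 1, norm_one, rfl⟩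
    · intro τ' _ hne
      split_ifs with h4
      · rcases hc τ' with h3 | h3
        · rw [h3, Int.cast_zero, MonoidAlgebra.single_zero]
        · exact absurd (hi τ' τ (by rw [h3]; exact one_ne_zero) h1 (h4.trans h2.symm)) hne
      · rfl
    · intro h; exact absurd (Finset.mem_univ _) h
  · push Not at h
    have h0 : (∑ τ, if row j τ = k then
        (MonoidAlgebra.single (s j τ)⁻¹ ((c j τ : ℤ) : ℂ) : MonoidAlgebra ℂ G) else 0) = 0 := by
      refine Finset.sum_eq_zero fun τ _ => ?_
      split_ifs with h4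
      · by_cases h5 : c j τ = 0
        · rw [h5, Int.cast_zero, MonoidAlgebra.single_zero]
        · exact absurd h4 (h τ h5)
      · rfl
    exact ⟨Or.inl h0, fun h1 => absurd h0 h1⟩

end

variable {G V : Type} [Group G] [Fintype V] [DecidableEq V]

theorem tri_ne {K : Set (Set V)} (hK : ∀ T ∈ K, T.ncard = 3) {u v w : V}
    (h : ({u, v, w} : Set V) ∈ K) : u ≠ v ∧ u ≠ w ∧ v ≠ w := by
  have h3 := hK _ h
  refine ⟨?_, ?_, ?_⟩
  · rintro rfl
    rw [Set.insert_eq_of_mem (by simp)] at h3
    have := Set.ncard_insert_le u {w}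
    rw [Set.ncard_singleton] at this
    omega
  · rintro rfl
    rw [Set.insert_eq_of_mem (by simp)] at h3
    have := Set.ncard_insert_le v {u}
    rw [Set.ncard_singleton] at this
    omega
  · rintro rfl
    rw [Set.pair_eq_singleton] at h3
    have := Set.ncard_insert_le u {v}
    rw [Set.ncard_singleton] at this
    omega

theorem cK_cases (K : Set (Set V)) (t : V × V × V) : cK K t = 0 ∨ cK K t = 1 := by
  unfold cK
  split_ifs
  · exact Or.inr rfl
  · exact Or.inl rfl

theorem cK_mem {K : Set (Set V)} {t : V × V × V} (h : cK K t ≠ 0) :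
    ({t.1, t.2.1, t.2.2} : Set V) ∈ K := by
  by_contra h1
  exact h (cK_zero h1)

/-- the Betti number of a complex with at most two triangles at every edge -/
theorem betti_two (K : Set (Set V)) (γ : V → V → G) (hK : ∀ T ∈ K, T.ncard = 3)
    (h2 : ∀ u v, u ≠ v → {w | ({u, v, w} : Set V) ∈ K}.ncard ≤ 2) :
    ∃ (n : ℕ) (H : Fin n → Subgroup G), (∀ i, Finite (H i)) ∧
      betti2 K γ = ∑ i, (Nat.card (H i) : ℝ)⁻¹ := by
  classical
  have a1 := fun (j k : V × V × V) => tm_two (fun (j : V × V × V) (_ : Unit) => j)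
    (fun _ _ => (1 : G)) (fun j _ => 1 - cK K j) j
    (fun _ => by rcases cK_cases K j with h | h <;> simp [h]) (fun _ _ _ _ _ => rfl) k
  have a2 := fun (j k : V × V × V) => tm_two
    (fun (j : V × V × V) (b : Bool) => if b then (j.1, j.2.2, j.2.1) else j)
    (fun _ _ => (1 : G)) (fun j _ => cK K j) j (fun _ => cK_cases K j) (by
      have key : cK K j ≠ 0 → (j.1, j.2.2, j.2.1) ≠ j := by
        intro h h'
        have h1 := congrArg (fun t : V × V × V => t.2.1) h'
        exact (tri_ne hK (cK_mem h)).2.2 h1.symm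
      intro τ τ' h _ h'
      cases τ <;> cases τ'
      · rfl
      · exact absurd h'.symm (by simpa using key h)
      · exact absurd h' (by simpa using key h)
      · rfl) k
  have a3 := fun (j k : V × V × V) => tm_two
    (fun (j : V × V × V) (b : Bool) => if b then (j.2.1, j.1, j.2.2) else j)
    (fun j b => if b then γ j.1 j.2.1 else 1) (fun j _ => cK K j) j (fun _ => cK_cases K j) (by
      have key : cK K j ≠ 0 → (j.2.1, j.1, j.2.2) ≠ j := by
        intro h h'
        have h1 := congrArg (fun t : V × V × V => t.1) h'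
        exact (tri_ne hK (cK_mem h)).1 h1.symm
      intro τ τ' h _ h'
      cases τ <;> cases τ'
      · rfl
      · exact absurd h'.symm (by simpa using key h)
      · exact absurd h' (by simpa using key h)
      · rfl) k
  have a4 := fun (j : V × V) (k : V × V × V) => tm_two
    (fun (j : V × V) (w : V) => (j.1, j.2, w)) (fun _ _ => (1 : G))
    (fun j w => cK K (j.1, j.2, w)) j (fun w => cK_cases K _)
    (fun w w' _ _ h => congrArg (fun t : V × V × V => t.2.2) h) k
  have b2 : ∀ (S : Set (V × V × V)) (f : Bool → V × V × V), S ⊆ Set.range f → S.ncard ≤ 2 := by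
    intro S f h
    refine le_trans (Set.ncard_le_ncard h (Set.toFinite _)) ?_
    rw [← Set.image_univ]
    refine le_trans (Set.ncard_image_le (Set.toFinite _)) ?_
    rw [Set.ncard_univ, Nat.card_eq_fintype_card, Fintype.card_bool]
  rw [betti_eq]
  obtain ⟨n, H, _, hH, h⟩ := kap_two_cols (zm K γ) (by
    rintro (j | j | j | j)
    · refine b2 _ (fun _ => j) ?_
      intro k hk
      obtain ⟨_, _, h⟩ := (a1 j k).2 hk
      exact ⟨true, h⟩
    · refine b2 _ (fun b => if b then (j.1, j.2.2, j.2.1) else j) ?_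
      intro k hk
      obtain ⟨b, _, h⟩ := (a2 j k).2 hk
      exact ⟨b, h⟩
    · refine b2 _ (fun b => if b then (j.2.1, j.1, j.2.2) else j) ?_
      intro k hk
      obtain ⟨b, _, h⟩ := (a3 j k).2 hk
      exact ⟨b, h⟩
    · by_cases huv : j.1 = j.2
      · have : {i | zm K γ i (Sum.inr (Sum.inr (Sum.inr j))) ≠ 0} = ∅ := by
          ext k
          refine ⟨fun hk => ?_, fun h => absurd h (Set.notMem_empty _)⟩
          obtain ⟨w, h1, _⟩ := (a4 j k).2 hk
          exact absurd huv (tri_ne hK (cK_mem h1)).1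
        rw [this, Set.ncard_empty]
        omega
      · refine le_trans (Set.ncard_le_ncard (t := (fun w => (j.1, j.2, w)) ''
          {w | ({j.1, j.2, w} : Set V) ∈ K}) ?_ (Set.toFinite _)) ?_
        · intro k hk
          obtain ⟨w, h1, h⟩ := (a4 j k).2 hk
          exact ⟨w, cK_mem h1, h⟩
        · exact le_trans (Set.ncard_image_le (Set.toFinite _)) (h2 _ _ huv)) (by
    rintro k (j | j | j | j)
    · exact (a1 j k).1
    · exact (a2 j k).1
    · exact (a3 j k).1
    · exact (a4 j k).1)
  exact ⟨n, H, hH, h⟩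

end Pool.Agent.L0h7.TC
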