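import Pool.Agent.L0h7.TC.Local
import Pool.Agent.L0h7.TC.Two

set_option autoImplicit false
set_option linter.unusedSectionVars false

/-! The complex of a cubic graph. -/

namespace Pool.Agent.L0h7.TC

/-- the neighbour to whose circle a local vertex belongs -/
def src (l : Fin 25) : Option (Fin 3) :=
  if l.1 < 3 then some 0 else if l.1 < 6 then some 1 else if l.1 < 9 then some 2 else none

/-- the index of a local vertex in its fibre -/
def idx (l : Fin 25) : Fin 16 :=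
  if h : l.1 < 9 then ⟨l.1 % 3, by omega⟩ else ⟨l.1 - 9, by omega⟩

variable {V : Type} [DecidableEq V]

/-- the fibre -/
def fib (n : V → Fin 3 → V) (v : V) (l : Fin 25) : V := (src l).elim v (n v)

/-- the chart at `v` -/
def phi (n : V → Fin 3 → V) (v : V) (l : Fin 25) : V × Fin 16 := (fib n v l, idx l)

theorem src_idx : ∀ l : Fin 25, (12 ≤ l → src l = none ∧ (idx l : ℕ) = (l : ℕ) - 9 ∧ 3 ≤ (idx l : ℕ)) ∧
    (l < 12 → (idx l : ℕ) < 3) ∧ (9 ≤ l → src l = none) ∧ (l < 9 → src l ≠ none) := by decide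

theorem src_idx_inj : ∀ l l' : Fin 25, src l = src l' → idx l = idx l' → l = l' := by
  decide +kernel

/-- the local vertex of a private vertex -/
def pv (j : Fin 16) : Fin 25 := ⟨j.1 + 9, by omega⟩

theorem src_pv : ∀ j : Fin 16, src (pv j) = none ∧ idx (pv j) = j := by decide

/-- the conditions on the neighbour function -/
structure Nb (n : V → Fin 3 → V) : Prop where
  inj : ∀ v, Function.Injective (n v)
  ne : ∀ v k, n v k ≠ v
  symm : ∀ v k, ∃ l, n (n v k) l = v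

variable {n : V → Fin 3 → V}

theorem fib_eq (hn : Nb n) {v : V} {l l' : Fin 25} (h : fib n v l = fib n v l') :
    src l = src l' := by
  unfold fib at h
  cases h1 : src l <;> cases h2 : src l' <;> rw [h1, h2] at h
  · exact absurd h.symm (hn.ne v _)
  · exact absurd h (hn.ne v _)
  · exact congrArg some (hn.inj v h)

theorem phi_inj (hn : Nb n) (v : V) : Function.Injective (phi n v) := by
  intro l l' h
  have h1 := congrArg Prod.fst h
  have h2 := congrArg Prod.snd h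
  exact src_idx_inj l l' (fib_eq hn h1) h2

/-- a private vertex determines its chart -/
theorem phi_priv {v v' : V} {l l' : Fin 25} (hl : 12 ≤ l) (h : phi n v l = phi n v' l') :
    v = v' ∧ l = l' := by
  have h1 := congrArg Prod.fst h
  have h2 := congrArg Prod.snd h
  have h3 := (src_idx l).1 hl
  have h4 : 12 ≤ l' := by
    by_contra h5
    have h6 := (src_idx l').2.1 (not_le.1 h5)
    have h7 : idx l = idx l' := h2
    rw [← h7] at h6
    omega
  have h5 := (src_idx l').1 h4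
  have h6 : fib n v l = fib n v' l' := h1
  unfold fib at h6
  rw [h3.1, h5.1] at h6
  refine ⟨h6, src_idx_inj l l' (by rw [h3.1, h5.1]) h2⟩

/-- the complex -/
def KK (n : V → Fin 3 → V) : Set (Set (V × Fin 16)) :=
  {T | ∃ v a b c, c ∈ th a b ∧ T = {phi n v a, phi n v b, phi n v c}}

theorem th_ne {a b c : Fin 25} (h : c ∈ th a b) : a ≠ b ∧ a ≠ c ∧ b ≠ c := by
  obtain ⟨t, ht, hp⟩ := mem_th.1 h
  obtain ⟨h1, h2, h3⟩ := TL_ne t ht
  rcases hp with rfl | rfl | rfl | rfl | rfl | rfl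
  · exact ⟨h1, h2, h3⟩
  · exact ⟨h1.symm, h3, h2⟩
  · exact ⟨h3, h1.symm, h2.symm⟩
  · exact ⟨h3.symm, h2.symm, h1.symm⟩
  · exact ⟨h2.symm, h3.symm, h1⟩
  · exact ⟨h2, h1, h3.symm⟩

theorem set_per {X : Type} {x y z p q r : X} (hpq : p ≠ q) (hpr : p ≠ r) (hqr : q ≠ r)
    (h : ({x, y, z} : Set X) = {p, q, r}) : Per (p, q, r) x y z := by
  have hp : p ∈ ({x, y, z} : Set X) := h ▸ (by simp)
  have hq : q ∈ ({x, y, z} : Set X) := h ▸ (by simp)
  have hr : r ∈ ({x, y, z} : Set X) := h ▸ (by simp)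
  simp only [Set.mem_insert_iff, Set.mem_singleton_iff] at hp hq hr
  unfold Per
  rcases hp with rfl | rfl | rfl <;> rcases hq with rfl | rfl | rfl <;>
    rcases hr with rfl | rfl | rfl <;> simp_all

theorem mem_KK (hn : Nb n) {x y z : V × Fin 16} : ({x, y, z} : Set (V × Fin 16)) ∈ KK n ↔
    ∃ v a b c, c ∈ th a b ∧ phi n v a = x ∧ phi n v b = y ∧ phi n v c = z := by
  constructor
  · rintro ⟨v, a, b, c, hc, h⟩
    obtain ⟨h1, h2, h3⟩ := th_ne hc
    have hi := phi_inj hn v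
    have hp := set_per (fun e => h1 (hi e)) (fun e => h2 (hi e)) (fun e => h3 (hi e)) h
    unfold Per at hp
    simp only [Prod.mk.injEq] at hp
    rcases hp with ⟨rfl, rfl, rfl⟩ | ⟨rfl, rfl, rfl⟩ | ⟨rfl, rfl, rfl⟩ | ⟨rfl, rfl, rfl⟩ |
      ⟨rfl, rfl, rfl⟩ | ⟨rfl, rfl, rfl⟩
    · exact ⟨v, a, b, c, hc, rfl, rfl, rfl⟩
    · exact ⟨v, b, a, c, th_swap hc, rfl, rfl, rfl⟩
    · exact ⟨v, b, c, a, th_swap' (th_swap hc), rfl, rfl, rfl⟩
    · exact ⟨v, c, b, a, th_swap (th_swap' (th_swap hc)), rfl, rfl, rfl⟩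
    · exact ⟨v, c, a, b, th_swap (th_swap' hc), rfl, rfl, rfl⟩
    · exact ⟨v, a, c, b, th_swap' hc, rfl, rfl, rfl⟩
  · rintro ⟨v, a, b, c, hc, rfl, rfl, rfl⟩
    exact ⟨v, a, b, c, hc, rfl⟩

theorem KK_card (hn : Nb n) : ∀ T ∈ KK n, T.ncard = 3 := by
  rintro T ⟨v, a, b, c, hc, rfl⟩
  obtain ⟨h1, h2, h3⟩ := th_ne hc
  have hi := phi_inj hn v
  exact Set.ncard_eq_three.2 ⟨_, _, _, fun e => h1 (hi e), fun e => h2 (hi e),
    fun e => h3 (hi e), rfl⟩

/-- every triangle has a private vertex, and its vertices in the circles are in one circle -/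
theorem TL_priv : ∀ t ∈ TL, (12 ≤ t.1 ∨ 12 ≤ t.2.1 ∨ 12 ≤ t.2.2) ∧
    (t.1 < 9 → t.2.1 < 9 → src t.1 = src t.2.1) ∧ (t.1 < 9 → t.2.2 < 9 → src t.1 = src t.2.2) ∧
    (t.2.1 < 9 → t.2.2 < 9 → src t.2.1 = src t.2.2) ∧
    (t.1 < 12 → t.1 < 9 ∨ (t.1 = 9 ∧ 12 ≤ t.2.1 ∧ 12 ≤ t.2.2)) ∧
    (t.2.1 < 12 → t.2.1 < 9 ∨ (t.2.1 = 9 ∧ 12 ≤ t.1 ∧ 12 ≤ t.2.2)) ∧
    (t.2.2 < 12 → t.2.2 < 9 ∨ (t.2.2 = 9 ∧ 12 ≤ t.1 ∧ 12 ≤ t.2.1)) := by decide +kernel

theorem th_priv {a b c : Fin 25} (h : c ∈ th a b) : 12 ≤ a ∨ 12 ≤ b ∨ 12 ≤ c := by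
  obtain ⟨t, ht, hp⟩ := mem_th.1 h
  have h1 := (TL_priv t ht).1
  rcases hp with rfl | rfl | rfl | rfl | rfl | rfl <;> tauto

theorem th_src {a b c : Fin 25} (h : c ∈ th a b) (ha : a < 9) (hb : b < 9) : src a = src b := by
  obtain ⟨t, ht, hp⟩ := mem_th.1 h
  obtain ⟨_, h1, h2, h3, _⟩ := TL_priv t ht
  rcases hp with rfl | rfl | rfl | rfl | rfl | rfl
  · exact h1 ha hb
  · exact (h1 hb ha).symm
  · exact h3 ha hb
  · exact (h3 hb ha).symm
  · exact (h2 hb ha).symm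
  · exact h2 ha hb

theorem th_low {a b c : Fin 25} (h : c ∈ th a b) (ha : a < 12) :
    a < 9 ∨ (a = 9 ∧ 12 ≤ b ∧ 12 ≤ c) := by
  obtain ⟨t, ht, hp⟩ := mem_th.1 h
  obtain ⟨_, _, _, _, h1, h2, h3⟩ := TL_priv t ht
  rcases hp with rfl | rfl | rfl | rfl | rfl | rfl
  · exact h1 ha
  · exact h2 ha
  · exact (h2 ha).imp_right fun h => ⟨h.1, h.2.2, h.2.1⟩
  · exact (h3 ha).imp_right fun h => ⟨h.1, h.2.2, h.2.1⟩
  · exact h3 ha
  · exact (h1 ha).imp_right fun h => ⟨h.1, h.2.2, h.2.1⟩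

/-- the vertices of a triangle lie in at most two fibres -/
theorem th_fib {a b c : Fin 25} (h : c ∈ th a b) : src a = none ∨ src b = none ∨ src a = src b := by
  by_cases ha : a < 9
  · by_cases hb : b < 9
    · exact Or.inr (Or.inr (th_src h ha hb))
    · exact Or.inr (Or.inl ((src_idx b).2.2.1 (not_lt.1 hb)))
  · exact Or.inl ((src_idx a).2.2.1 (not_lt.1 ha))

end Pool.Agent.L0h7.TC
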