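import Pool.Agent.L0h7.TC.Term

set_option autoImplicit false
set_option linter.unusedSectionVars false

/-! Square summable 2-cycles of covers of finite 2-dimensional complexes. -/

namespace Pool.Agent.L0h7.TC

open Matrix TH57.Thr.Ati Pool.Agent.R719.AT Pool.Agent.R472.Grid Pool.Agent.W649.ZL
open Pool.Agent.L0h7.CG (Zc)
open Pool.Agent.L0h7 (CG.kerDim_of_null)

variable {G V : Type} [Group G] [Fintype V]

/-- the conditions for 2-cycles -/
def IsCyc (K : Set (Set V)) (γ : V → V → G) (x : (V × V × V) × G → ℂ) : Prop :=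
  (∀ u v w g, ({u, v, w} : Set V) ∉ K → x ((u, v, w), g) = 0) ∧
  (∀ u v w g, x ((u, w, v), g) = - x ((u, v, w), g)) ∧
  (∀ u v w g, x ((v, u, w), g * γ u v) = - x ((u, v, w), g)) ∧
  ∀ u v g, ∑ w, x ((u, v, w), g) = 0

/-- the square summable 2-cycles -/
def cycles (K : Set (Set V)) (γ : V → V → G) : Set (lp (fun _ : (V × V × V) × G => ℂ) 2) :=
  {x | (∀ u v w g, ({u, v, w} : Set V) ∉ K → x ((u, v, w), g) = 0) ∧
    (∀ u v w g, x ((u, w, v), g) = - x ((u, v, w), g)) ∧
    (∀ u v w g, x ((v, u, w), g * γ u v) = - x ((u, v, w), g)) ∧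
    ∀ u v g, ∑ w, x ((u, v, w), g) = 0}

open Classical in
/-- the second Betti number -/
noncomputable def betti2 (K : Set (Set V)) (γ : V → V → G) : ℝ :=
  ∑ t : V × V × V, (1 - (Metric.infDist (lp.single 2 (t, (1 : G)) (1 : ℂ) :
    lp (fun _ : (V × V × V) × G => ℂ) 2) (cycles K γ)) ^ 2)

variable [DecidableEq V]

open Classical in
/-- the coefficient of a triple -/
noncomputable def cK (K : Set (Set V)) (t : V × V × V) : ℤ :=
  if ({t.1, t.2.1, t.2.2} : Set V) ∈ K then 1 else 0

/-- the matrix whose kernel consists of the 2-cycles -/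
noncomputable def zm (K : Set (Set V)) (γ : V → V → G) :
    Matrix (V × V × V) ((V × V × V) ⊕ (V × V × V) ⊕ (V × V × V) ⊕ (V × V)) (MonoidAlgebra ℂ G) :=
  Matrix.fromCols (tm (fun j (_ : Unit) => j) (fun _ _ => 1) (fun j _ => 1 - cK K j))
    (Matrix.fromCols (tm (fun j (b : Bool) => if b then (j.1, j.2.2, j.2.1) else j) (fun _ _ => 1)
        (fun j _ => cK K j))
      (Matrix.fromCols (tm (fun j (b : Bool) => if b then (j.2.1, j.1, j.2.2) else j)
          (fun j b => if b then γ j.1 j.2.1 else 1) (fun j _ => cK K j))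
        (tm (fun j (w : V) => (j.1, j.2, w)) (fun _ _ => 1)
          (fun j w => cK K (j.1, j.2, w)))))

theorem Zc_cols {A B C : Type} (X : Matrix A B (MonoidAlgebra ℂ G)) (Y : Matrix A C (MonoidAlgebra ℂ G))
    (hX : Zc X) (hY : Zc Y) : Zc (Matrix.fromCols X Y) := by
  intro i j g
  rcases j with j | j
  · exact hX i j g
  · exact hY i j g

theorem zm_int (K : Set (Set V)) (γ : V → V → G) : Zc (zm K γ) :=
  Zc_cols _ _ (tm_int _ _ _) (Zc_cols _ _ (tm_int _ _ _) (Zc_cols _ _ (tm_int _ _ _)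
    (tm_int _ _ _)))

theorem cK_one {K : Set (Set V)} {t : V × V × V} (h : ({t.1, t.2.1, t.2.2} : Set V) ∈ K) :
    cK K t = 1 := if_pos h

theorem cK_zero {K : Set (Set V)} {t : V × V × V} (h : ({t.1, t.2.1, t.2.2} : Set V) ∉ K) :
    cK K t = 0 := if_neg h

theorem zm_iff (K : Set (Set V)) (γ : V → V → G) (x : (V × V × V) × G → ℂ) :
    ac (zm K γ) x = 0 ↔ IsCyc K γ x := by
  have e1 : ∀ (t : V × V × V) (g : G), ac (zm K γ) x (Sum.inl t, g) =
      (1 - cK K t : ℤ) * x (t, g) := by
    intro t g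
    have := ac_tm (fun (j : V × V × V) (_ : Unit) => j) (fun _ _ => (1 : G))
      (fun j _ => 1 - cK K j) x t g
    rw [Finset.univ_unique, Finset.sum_singleton, mul_one] at this
    exact this
  have e2 : ∀ (t : V × V × V) (g : G), ac (zm K γ) x (Sum.inr (Sum.inl t), g) =
      (cK K t : ℤ) * (x ((t.1, t.2.2, t.2.1), g) + x (t, g)) := by
    intro t g
    have := ac_tm (fun (j : V × V × V) (b : Bool) => if b then (j.1, j.2.2, j.2.1) else j)
      (fun _ _ => (1 : G)) (fun j _ => cK K j) x t g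
    rw [Fintype.sum_bool, mul_one, if_pos rfl, if_neg (by simp), ← mul_add] at this
    exact this
  have e3 : ∀ (t : V × V × V) (g : G), ac (zm K γ) x (Sum.inr (Sum.inr (Sum.inl t)), g) =
      (cK K t : ℤ) * (x ((t.2.1, t.1, t.2.2), g * γ t.1 t.2.1) + x (t, g)) := by
    intro t g
    have := ac_tm (fun (j : V × V × V) (b : Bool) => if b then (j.2.1, j.1, j.2.2) else j)
      (fun j b => if b then γ j.1 j.2.1 else 1) (fun j _ => cK K j) x t g
    rw [Fintype.sum_bool, if_pos rfl, if_pos rfl, if_neg (by simp), if_neg (by simp), mul_one,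
      ← mul_add] at this
    exact this
  have e4 : ∀ (t : V × V) (g : G), ac (zm K γ) x (Sum.inr (Sum.inr (Sum.inr t)), g) =
      ∑ w, (cK K (t.1, t.2, w) : ℤ) * x ((t.1, t.2, w), g) := by
    intro t g
    have := ac_tm (fun (j : V × V) (w : V) => (j.1, j.2, w)) (fun _ _ => (1 : G))
      (fun j w => cK K (j.1, j.2, w)) x t g
    simp only [mul_one] at this
    exact this
  constructor
  · intro h
    have h1 : ∀ u v w g, ({u, v, w} : Set V) ∉ K → x ((u, v, w), g) = 0 := by
      intro u v w g hK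
      have h1 := e1 (u, v, w) g
      rw [h, cK_zero hK] at h1
      simpa using h1.symm
    refine ⟨h1, ?_, ?_, ?_⟩
    · intro u v w g
      by_cases hK : ({u, v, w} : Set V) ∈ K
      · have h1 := e2 (u, v, w) g
        rw [h, cK_one hK] at h1
        have h2 : (0 : ℂ) = ((1 : ℤ) : ℂ) * (x ((u, w, v), g) + x ((u, v, w), g)) := h1
        rw [Int.cast_one, one_mul] at h2
        linear_combination -h2
      · rw [h1 u v w g hK, h1 u w v g (by rw [Set.pair_comm w v]; exact hK), neg_zero]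
    · intro u v w g
      by_cases hK : ({u, v, w} : Set V) ∈ K
      · have h1 := e3 (u, v, w) g
        rw [h, cK_one hK] at h1
        have h2 : (0 : ℂ) = ((1 : ℤ) : ℂ) * (x ((v, u, w), g * γ u v) + x ((u, v, w), g)) := h1
        rw [Int.cast_one, one_mul] at h2
        linear_combination -h2
      · rw [h1 u v w g hK, h1 v u w _ (by rw [Set.insert_comm v u]; exact hK), neg_zero]
    · intro u v g
      have h4 := e4 (u, v) g
      rw [h] at h4
      have h5 : (0 : ℂ) = ∑ w, (cK K (u, v, w) : ℤ) * x ((u, v, w), g) := h4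
      rw [h5]
      refine Finset.sum_congr rfl fun w _ => ?_
      by_cases hK : ({u, v, w} : Set V) ∈ K
      · rw [cK_one hK]; simp
      · rw [cK_zero hK, h1 u v w g hK]; simp
  · rintro ⟨h1, h2, h3, h4⟩
    funext ⟨j, g⟩
    rcases j with ⟨u, v, w⟩ | ⟨u, v, w⟩ | ⟨u, v, w⟩ | ⟨u, v⟩
    · rw [e1]
      by_cases hK : ({u, v, w} : Set V) ∈ K
      · rw [cK_one hK]; simp
      · rw [h1 u v w g hK, mul_zero]; rfl
    · rw [e2]
      have h5 := h2 u v w g
      change _ * (x ((u, w, v), g) + x ((u, v, w), g)) = 0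
      rw [h5, neg_add_cancel, mul_zero]
    · rw [e3]
      have h5 := h3 u v w g
      change _ * (x ((v, u, w), g * γ u v) + x ((u, v, w), g)) = 0
      rw [h5, neg_add_cancel, mul_zero]
    · rw [e4]
      change ∑ w, (cK K (u, v, w) : ℤ) * x ((u, v, w), g) = 0
      rw [← h4 u v g]
      refine Finset.sum_congr rfl fun w _ => ?_
      by_cases hK : ({u, v, w} : Set V) ∈ K
      · rw [cK_one hK]; simp
      · rw [cK_zero hK, h1 u v w g hK]; simp

theorem betti_eq (K : Set (Set V)) (γ : V → V → G) : betti2 K γ = kap (zm K γ) := by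
  classical
  rw [← kerC_dim, kerC_ac]
  have e : {x : lp (fun _ : (V × V × V) × G => ℂ) 2 | ac (zm K γ) x = 0} = cycles K γ := by
    ext x
    exact zm_iff K γ x
  rw [e]
  unfold betti2
  refine Finset.sum_congr rfl fun i _ => ?_
  congr
  exact Subsingleton.elim _ _

/-- the Betti number is a kernel dimension -/
theorem kerDim_of_betti (K : Set (Set V)) (γ : V → V → G) :
    ∃ (m n : ℕ) (A : Matrix (Fin m) (Fin n) (G →₀ ℂ)), (∀ i j g, ∃ z : ℤ, A i j g = z) ∧
      W656.VA.kerDim A = betti2 K γ := by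
  classical
  let e := (Fintype.equivFin (V × V × V)).symm
  let f := (Fintype.equivFin ((V × V × V) ⊕ (V × V × V) ⊕ (V × V × V) ⊕ (V × V))).symm
  refine ⟨_, _, Matrix.of fun i j => (zm K γ (e i) (f j)).coeff, fun i j g => zm_int K γ _ _ g, ?_⟩
  rw [betti_eq K γ, Pool.Agent.Y477.AV.kerDim_kap, ← kap_re e f (zm K γ)]
  rfl

end Pool.Agent.L0h7.TC
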