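import Mathlib

set_option autoImplicit false
set_option linter.unusedSectionVars false
set_option linter.style.longLine false

/-! The local model: a pair of pants with 29 triangles, and a projective plane with 10. -/

namespace Pool.Agent.L0h7.TC

/-- the triangles of the pair of pants; its boundary consists of the circles `012`, `345`, `678` -/
def TS : List (Fin 25 × Fin 25 × Fin 25) :=
  [(0, 1, 12), (12, 1, 13), (1, 2, 13), (13, 2, 14), (2, 0, 14), (14, 0, 12), (3, 4, 15), (15, 4, 16), (4, 5, 16), (16, 5, 17), (5, 3, 17), (17, 3, 15), (6, 7, 18), (18, 7, 19), (7, 8, 19), (19, 8, 20), (8, 6, 20), (20, 6, 18), (15, 13, 17), (13, 14, 17), (17, 14, 16), (14, 12, 16), (16, 12, 15), (12, 13, 18), (18, 13, 20), (13, 15, 20), (20, 15, 19), (15, 12, 19), (19, 12, 18)]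

/-- the triangles of the projective plane -/
def TR : List (Fin 25 × Fin 25 × Fin 25) :=
  [(9, 12, 21), (9, 21, 22), (9, 22, 23), (9, 23, 24), (9, 24, 12), (12, 21, 23), (21, 22, 24), (22, 23, 12), (23, 24, 21), (24, 12, 22)]

/-- all triangles -/
def TL : List (Fin 25 × Fin 25 × Fin 25) := TS ++ TR

/-- the third vertices of the triangles of `TL` at a given oriented edge -/
def th (a b : Fin 25) : List (Fin 25) :=
  TL.flatMap fun t =>
    (if t.1 = a ∧ t.2.1 = b then [t.2.2] else []) ++ (if t.1 = b ∧ t.2.1 = a then [t.2.2] else []) ++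
    (if t.2.1 = a ∧ t.2.2 = b then [t.1] else []) ++ (if t.2.1 = b ∧ t.2.2 = a then [t.1] else []) ++
    (if t.2.2 = a ∧ t.1 = b then [t.2.1] else []) ++ (if t.2.2 = b ∧ t.1 = a then [t.2.1] else [])

/-- the list of all triangles, with natural numbers -/
def TLN : List (ℕ × ℕ × ℕ) :=
  [(0, 1, 12), (12, 1, 13), (1, 2, 13), (13, 2, 14), (2, 0, 14), (14, 0, 12), (3, 4, 15), (15, 4, 16), (4, 5, 16), (16, 5, 17), (5, 3, 17), (17, 3, 15), (6, 7, 18), (18, 7, 19), (7, 8, 19), (19, 8, 20), (8, 6, 20), (20, 6, 18), (15, 13, 17), (13, 14, 17), (17, 14, 16), (14, 12, 16), (16, 12, 15), (12, 13, 18), (18, 13, 20), (13, 15, 20), (20, 15, 19), (15, 12, 19), (19, 12, 18), (9, 12, 21), (9, 21, 22), (9, 22, 23), (9, 23, 24), (9, 24, 12), (12, 21, 23), (21, 22, 24), (22, 23, 12), (23, 24, 21), (24, 12, 22)]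

theorem TL_N : TL.map (fun t => ((t.1 : ℕ), (t.2.1 : ℕ), (t.2.2 : ℕ))) = TLN := by decide

/-- third vertices, with natural numbers -/
def thN (a b : ℕ) : List ℕ :=
  TLN.flatMap fun t =>
    (if t.1 = a ∧ t.2.1 = b then [t.2.2] else []) ++ (if t.1 = b ∧ t.2.1 = a then [t.2.2] else []) ++
    (if t.2.1 = a ∧ t.2.2 = b then [t.1] else []) ++ (if t.2.1 = b ∧ t.2.2 = a then [t.1] else []) ++
    (if t.2.2 = a ∧ t.1 = b then [t.2.1] else []) ++ (if t.2.2 = b ∧ t.1 = a then [t.2.1] else [])

theorem th_N (a b : Fin 25) : (th a b).map Fin.val = thN a b := by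
  unfold th thN
  rw [← TL_N, List.map_flatMap, List.flatMap_map]
  congr 1
  funext t
  simp only [List.map_append, Fin.ext_iff, apply_ite (List.map (Fin.val : Fin 25 → ℕ)),
    List.map_cons, List.map_nil]

theorem th_of_N {a b : Fin 25} {l : List (Fin 25)} (h : thN a b = l.map Fin.val) :
    th a b = l := by
  rw [← th_N] at h
  exact (List.map_injective_iff.2 Fin.val_injective) h

/-- `(x, y, z)` is a permutation of `t` -/
def Per {X : Type} (t : X × X × X) (x y z : X) : Prop :=
  t = (x, y, z) ∨ t = (y, x, z) ∨ t = (z, x, y) ∨ t = (z, y, x) ∨ t = (y, z, x) ∨ t = (x, z, y)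

theorem mem_th {a b c : Fin 25} : c ∈ th a b ↔ ∃ t ∈ TL, Per t a b c := by
  unfold th Per
  rw [List.mem_flatMap]
  refine exists_congr fun t => and_congr_right fun _ => ?_
  obtain ⟨p, q, r⟩ := t
  simp only [List.mem_append, List.mem_ite_nil_right, List.mem_singleton, Prod.mk.injEq]
  constructor
  · rintro (((((⟨⟨rfl, rfl⟩, rfl⟩ | ⟨⟨rfl, rfl⟩, rfl⟩) | ⟨⟨rfl, rfl⟩, rfl⟩) |
      ⟨⟨rfl, rfl⟩, rfl⟩) | ⟨⟨rfl, rfl⟩, rfl⟩) | ⟨⟨rfl, rfl⟩, rfl⟩) <;> simp
  · rintro (⟨rfl, rfl, rfl⟩ | ⟨rfl, rfl, rfl⟩ | ⟨rfl, rfl, rfl⟩ | ⟨rfl, rfl, rfl⟩ |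
      ⟨rfl, rfl, rfl⟩ | ⟨rfl, rfl, rfl⟩) <;> simp

theorem Per.swap {X : Type} {t : X × X × X} {x y z : X} (h : Per t x y z) : Per t y x z := by
  rcases h with h | h | h | h | h | h <;> simp [Per, h]

theorem Per.swap' {X : Type} {t : X × X × X} {x y z : X} (h : Per t x y z) : Per t x z y := by
  rcases h with h | h | h | h | h | h <;> simp [Per, h]

theorem th_swap {a b c : Fin 25} (h : c ∈ th a b) : c ∈ th b a := by
  obtain ⟨t, ht, hp⟩ := mem_th.1 h
  exact mem_th.2 ⟨t, ht, hp.swap⟩

theorem th_swap' {a b c : Fin 25} (h : c ∈ th a b) : b ∈ th a c := by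
  obtain ⟨t, ht, hp⟩ := mem_th.1 h
  exact mem_th.2 ⟨t, ht, hp.swap'⟩

/-- the orientation of `(x, y, z)` relative to `t` -/
def sg {X : Type} [DecidableEq X] (t : X × X × X) (x y z : X) : ℤ :=
  ((if t = (x, y, z) then 1 else 0) + (if t = (y, z, x) then 1 else 0) +
    (if t = (z, x, y) then 1 else 0)) - ((if t = (y, x, z) then 1 else 0) +
    (if t = (x, z, y) then 1 else 0) + (if t = (z, y, x) then 1 else 0))

theorem sg_swap {X : Type} [DecidableEq X] (t : X × X × X) (x y z : X) :
    sg t y x z = - sg t x y z := by unfold sg; ring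

theorem sg_swap' {X : Type} [DecidableEq X] (t : X × X × X) (x y z : X) :
    sg t x z y = - sg t x y z := by unfold sg; ring

theorem sg_per {X : Type} [DecidableEq X] {t : X × X × X} {x y z : X} (h : sg t x y z ≠ 0) :
    Per t x y z := by
  by_contra hn
  unfold Per at hn
  push Not at hn
  obtain ⟨h1, h2, h3, h4, h5, h6⟩ := hn
  apply h
  unfold sg
  rw [if_neg h1, if_neg h2, if_neg h3, if_neg h4, if_neg h5, if_neg h6]
  rfl

theorem sum_map_neg {α : Type} (l : List α) (f g : α → ℤ) (h : ∀ t, f t = - g t) :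
    (l.map f).sum = - (l.map g).sum := by
  induction l with
  | nil => rfl
  | cons a l ih => rw [List.map_cons, List.map_cons, List.sum_cons, List.sum_cons, ih, h]; ring

/-- the orientation of a local triple -/
def sS (a b c : Fin 25) : ℤ := (TS.map fun t => sg t a b c).sum

theorem sS_swap (a b c : Fin 25) : sS b a c = - sS a b c := by
  exact sum_map_neg _ _ _ fun t => sg_swap t a b c

theorem sS_swap' (a b c : Fin 25) : sS a c b = - sS a b c := by
  exact sum_map_neg _ _ _ fun t => sg_swap' t a b c

theorem sS_zero {a b c : Fin 25} (h : c ∉ th a b) : sS a b c = 0 := by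
  unfold sS
  apply List.sum_eq_zero
  intro z hz
  obtain ⟨t, ht, rfl⟩ := List.mem_map.1 hz
  by_contra hn
  exact h (mem_th.2 ⟨t, List.mem_append_left _ ht, sg_per hn⟩)

/-- a code for the set of vertices -/
def key (t : Fin 25 × Fin 25 × Fin 25) : ℕ := 2 ^ (t.1 : ℕ) + 2 ^ (t.2.1 : ℕ) + 2 ^ (t.2.2 : ℕ)

theorem key_nodup : (TL.map key).Nodup := by
  have h : TL.map key = TLN.map (fun t => 2 ^ t.1 + 2 ^ t.2.1 + 2 ^ t.2.2) := by
    rw [← TL_N, List.map_map]
    rfl
  rw [h]
  decide +kernel

theorem per_key {t : Fin 25 × Fin 25 × Fin 25} {a b c : Fin 25} (h : Per t a b c) :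
    key t = key (a, b, c) := by
  rcases h with rfl | rfl | rfl | rfl | rfl | rfl <;> simp only [key] <;> ring

theorem per_eq {t t' : Fin 25 × Fin 25 × Fin 25} (ht : t ∈ TL) (ht' : t' ∈ TL)
    (h : Per t' t.1 t.2.1 t.2.2) : t' = t :=
  List.inj_on_of_nodup_map key_nodup ht' ht (per_key h)

theorem TL_nodup : TL.Nodup := List.Nodup.of_map key key_nodup

theorem TL_ne : ∀ t ∈ TL, t.1 ≠ t.2.1 ∧ t.1 ≠ t.2.2 ∧ t.2.1 ≠ t.2.2 := by
  have h : ∀ t ∈ TLN, t.1 ≠ t.2.1 ∧ t.1 ≠ t.2.2 ∧ t.2.1 ≠ t.2.2 := by decide +kernel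
  intro t ht
  have h1 := h _ (by rw [← TL_N]; exact List.mem_map_of_mem (f := fun t : Fin 25 × Fin 25 × Fin 25
    => ((t.1 : ℕ), (t.2.1 : ℕ), (t.2.2 : ℕ))) ht)
  exact ⟨fun e => h1.1 (congrArg Fin.val e), fun e => h1.2.1 (congrArg Fin.val e),
    fun e => h1.2.2 (congrArg Fin.val e)⟩

theorem sg_self {t : Fin 25 × Fin 25 × Fin 25} (h : t.1 ≠ t.2.1 ∧ t.1 ≠ t.2.2 ∧ t.2.1 ≠ t.2.2) :
    sg t t.1 t.2.1 t.2.2 = 1 := by
  obtain ⟨a, b, c⟩ := t
  obtain ⟨h1, h2, h3⟩ := h
  unfold sg
  simp only [Prod.mk.injEq, true_and, and_true]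
  rw [if_pos trivial, if_neg (fun h => h1 h.1), if_neg (fun h => h2 h.1),
    if_neg (fun h => h1 h.1), if_neg (fun h => h3 h.1), if_neg (fun h => h2 h.1)]
  rfl

theorem sum_one {α : Type} {l : List α} (hl : l.Nodup) {t : α} (ht : t ∈ l) (f : α → ℤ)
    (h : ∀ t' ∈ l, t' ≠ t → f t' = 0) : (l.map f).sum = f t := by
  induction l with
  | nil => exact absurd ht List.not_mem_nil
  | cons a l ih =>
    rw [List.map_cons, List.sum_cons]
    rw [List.nodup_cons] at hl
    rcases List.mem_cons.1 ht with rfl | ht
    · have h0 : (l.map f).sum = 0 := by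
        apply List.sum_eq_zero
        intro z hz
        obtain ⟨t', ht', rfl⟩ := List.mem_map.1 hz
        exact h t' (List.mem_cons_of_mem _ ht') (fun e => hl.1 (e ▸ ht'))
      rw [h0, add_zero]
    · rw [ih hl.2 ht (fun t' ht' => h t' (List.mem_cons_of_mem _ ht')),
        h a List.mem_cons_self (fun e => hl.1 (e ▸ ht)), zero_add]

theorem sS_TS : ∀ t ∈ TS, sS t.1 t.2.1 t.2.2 = 1 := by
  intro t ht
  have ht' : t ∈ TL := List.mem_append_left _ ht
  unfold sS
  rw [sum_one (List.nodup_append.1 TL_nodup).1 ht, sg_self (TL_ne t ht')]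
  intro t' ht2 hne
  by_contra h0
  exact hne (per_eq ht' (List.mem_append_left _ ht2) (sg_per h0))

theorem sS_TR : ∀ t ∈ TR, sS t.1 t.2.1 t.2.2 = 0 := by
  intro t ht
  have ht' : t ∈ TL := List.mem_append_right _ ht
  unfold sS
  apply List.sum_eq_zero
  intro z hz
  obtain ⟨t', ht2, rfl⟩ := List.mem_map.1 hz
  by_contra h0
  have h1 := per_eq ht' (List.mem_append_left _ ht2) (sg_per h0)
  exact (List.nodup_append.1 TL_nodup).2.2 t' ht2 t ht h1

section
variable (h : Fin 25 → Fin 25 → Fin 25 → ℂ) (H1 : ∀ a b c, h a c b = - h a b c)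
  (H2 : ∀ a b c, h b a c = - h a b c) (H3 : ∀ a b c, c ∉ th a b → h a b c = 0)
  (H4 : ∀ a b, 12 ≤ a → ∑ c, h a b c = 0)
include H1 H2 H3 H4

theorem two (a b c d : Fin 25) (ha : 12 ≤ a) (hcd : c ≠ d) (ht : thN a b = [(c : ℕ), (d : ℕ)]) :
    h a b c + h a b d = 0 := by
  rw [← H4 a b ha, Finset.sum_eq_add c d hcd]
  · intro e _ he
    apply H3
    rw [th_of_N (l := [c, d]) ht]
    simp [he.1, he.2]
  · intro hn; exact absurd (Finset.mem_univ _) hn
  · intro hn; exact absurd (Finset.mem_univ _) hn

theorem local_TL : (∀ t ∈ TS, h t.1 t.2.1 t.2.2 = h 12 13 18) ∧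
    ∀ t ∈ TR, h t.1 t.2.1 t.2.2 = 0 := by
  have two := two h H1 H2 H3 H4
  clear H3 H4
  set z := h 12 13 18 with hz
  have s0 : h 12 13 18 = z := rfl
  have s1 : h 12 1 13 = z := by
    have e0 := two 12 13 1 18 (by decide) (by decide) (by decide)
    have e1 := s0
    have e2 := H1 12 1 13
    grind
  have s2 : h 19 12 18 = z := by
    have e0 := two 12 18 13 19 (by decide) (by decide) (by decide)
    have e1 := s0
    have e2 := H1 12 13 18
    have e3 := H2 19 12 18
    have e4 := H1 12 19 18
    grind
  have s3 : h 18 13 20 = z := by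
    have e0 := two 13 18 12 20 (by decide) (by decide) (by decide)
    have e1 := s0
    have e2 := H2 12 13 18
    have e3 := H1 13 12 18
    have e4 := H2 18 13 20
    grind
  have s4 : h 0 1 12 = z := by
    have e0 := two 12 1 0 13 (by decide) (by decide) (by decide)
    have e1 := s1
    have e2 := H1 0 1 12
    have e3 := H2 0 12 1
    have e4 := H1 12 0 1
    grind
  have s5 : h 1 2 13 = z := by
    have e0 := two 13 1 12 2 (by decide) (by decide) (by decide)
    have e1 := s1
    have e2 := H1 12 1 13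
    have e3 := H2 12 13 1
    have e4 := H1 13 12 1
    have e5 := H1 1 2 13
    have e6 := H2 1 13 2
    grind
  have s6 : h 15 12 19 = z := by
    have e0 := two 19 12 15 18 (by decide) (by decide) (by decide)
    have e1 := s2
    have e2 := H1 15 12 19
    have e3 := H2 15 19 12
    have e4 := H1 19 15 12
    grind
  have s7 : h 18 7 19 = z := by
    have e0 := two 19 18 7 12 (by decide) (by decide) (by decide)
    have e1 := s2
    have e2 := H1 19 12 18
    have e3 := H1 18 7 19
    have e4 := H2 18 19 7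
    grind
  have s8 : h 20 6 18 = z := by
    have e0 := two 18 20 6 13 (by decide) (by decide) (by decide)
    have e1 := s3
    have e2 := H1 18 13 20
    have e3 := H1 20 6 18
    have e4 := H2 20 18 6
    grind
  have s9 : h 13 15 20 = z := by
    have e0 := two 13 20 18 15 (by decide) (by decide) (by decide)
    have e1 := s3
    have e2 := H2 18 13 20
    have e3 := H1 13 18 20
    have e4 := H1 13 15 20
    grind
  have s10 : h 14 0 12 = z := by
    have e0 := two 12 0 1 14 (by decide) (by decide) (by decide)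
    have e1 := s4
    have e2 := H1 0 1 12
    have e3 := H2 0 12 1
    have e4 := H1 14 0 12
    have e5 := H2 14 12 0
    have e6 := H1 12 14 0
    grind
  have s11 : h 13 2 14 = z := by
    have e0 := two 13 2 1 14 (by decide) (by decide) (by decide)
    have e1 := s5
    have e2 := H1 1 2 13
    have e3 := H2 1 13 2
    have e4 := H1 13 1 2
    grind
  have s12 : h 16 12 15 = z := by
    have e0 := two 15 12 16 19 (by decide) (by decide) (by decide)
    have e1 := s6
    have e2 := H1 16 12 15
    have e3 := H2 16 15 12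
    have e4 := H1 15 16 12
    grind
  have s13 : h 20 15 19 = z := by
    have e0 := two 15 19 20 12 (by decide) (by decide) (by decide)
    have e1 := s6
    have e2 := H1 15 12 19
    have e3 := H2 20 15 19
    have e4 := H1 15 20 19
    grind
  have s14 : h 6 7 18 = z := by
    have e0 := two 18 7 6 19 (by decide) (by decide) (by decide)
    have e1 := s7
    have e2 := H1 6 7 18
    have e3 := H2 6 18 7
    have e4 := H1 18 6 7
    grind
  have s15 : h 7 8 19 = z := by
    have e0 := two 19 7 18 8 (by decide) (by decide) (by decide)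
    have e1 := s7
    have e2 := H1 18 7 19
    have e3 := H2 18 19 7
    have e4 := H1 19 18 7
    have e5 := H1 7 8 19
    have e6 := H2 7 19 8
    grind
  have s16 : h 8 6 20 = z := by
    have e0 := two 20 6 8 18 (by decide) (by decide) (by decide)
    have e1 := s8
    have e2 := H1 8 6 20
    have e3 := H2 8 20 6
    have e4 := H1 20 8 6
    grind
  have s17 : h 15 13 17 = z := by
    have e0 := two 13 15 17 20 (by decide) (by decide) (by decide)
    have e1 := s9
    have e2 := H2 15 13 17
    grind
  have s18 : h 2 0 14 = z := by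
    have e0 := two 14 0 2 12 (by decide) (by decide) (by decide)
    have e1 := s10
    have e2 := H1 2 0 14
    have e3 := H2 2 14 0
    have e4 := H1 14 2 0
    grind
  have s19 : h 14 12 16 = z := by
    have e0 := two 14 12 0 16 (by decide) (by decide) (by decide)
    have e1 := s10
    have e2 := H1 14 0 12
    grind
  have s20 : h 13 14 17 = z := by
    have e0 := two 13 14 2 17 (by decide) (by decide) (by decide)
    have e1 := s11
    have e2 := H1 13 2 14
    grind
  have s21 : h 15 4 16 = z := by
    have e0 := two 16 15 4 12 (by decide) (by decide) (by decide)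
    have e1 := s12
    have e2 := H1 16 12 15
    have e3 := H1 15 4 16
    have e4 := H2 15 16 4
    grind
  have s22 : h 19 8 20 = z := by
    have e0 := two 20 19 8 15 (by decide) (by decide) (by decide)
    have e1 := s13
    have e2 := H1 20 15 19
    have e3 := H1 19 8 20
    have e4 := H2 19 20 8
    grind
  have s23 : h 17 3 15 = z := by
    have e0 := two 15 17 3 13 (by decide) (by decide) (by decide)
    have e1 := s17
    have e2 := H1 15 13 17
    have e3 := H1 17 3 15
    have e4 := H2 17 15 3
    grind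
  have s24 : h 17 14 16 = z := by
    have e0 := two 14 16 17 12 (by decide) (by decide) (by decide)
    have e1 := s19
    have e2 := H1 14 12 16
    have e3 := H2 17 14 16
    have e4 := H1 14 17 16
    grind
  have s25 : h 3 4 15 = z := by
    have e0 := two 15 4 3 16 (by decide) (by decide) (by decide)
    have e1 := s21
    have e2 := H1 3 4 15
    have e3 := H2 3 15 4
    have e4 := H1 15 3 4
    grind
  have s26 : h 4 5 16 = z := by
    have e0 := two 16 4 15 5 (by decide) (by decide) (by decide)
    have e1 := s21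
    have e2 := H1 15 4 16
    have e3 := H2 15 16 4
    have e4 := H1 16 15 4
    have e5 := H1 4 5 16
    have e6 := H2 4 16 5
    grind
  have s27 : h 5 3 17 = z := by
    have e0 := two 17 3 5 15 (by decide) (by decide) (by decide)
    have e1 := s23
    have e2 := H1 5 3 17
    have e3 := H2 5 17 3
    have e4 := H1 17 5 3
    grind
  have s28 : h 16 5 17 = z := by
    have e0 := two 17 16 5 14 (by decide) (by decide) (by decide)
    have e1 := s24
    have e2 := H1 17 14 16
    have e3 := H1 16 5 17
    have e4 := H2 16 17 5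
    grind
  set y := h 9 12 21 with hy
  have r0 : h 9 12 21 = y := rfl
  have r1 : h 9 24 12 = y := by
    have e0 := two 12 9 21 24 (by decide) (by decide) (by decide)
    have e1 := r0
    have e2 := H2 9 12 21
    have e3 := H1 9 24 12
    have e4 := H2 9 12 24
    grind
  have r2 : h 12 21 23 = -y := by
    have e0 := two 12 21 9 23 (by decide) (by decide) (by decide)
    have e1 := r0
    have e2 := H2 9 12 21
    have e3 := H1 12 9 21
    grind
  have r3 : h 9 21 22 = y := by
    have e0 := two 21 9 12 22 (by decide) (by decide) (by decide)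
    have e1 := r0
    have e2 := H1 9 12 21
    have e3 := H2 9 21 12
    have e4 := H2 9 21 22
    grind
  have r4 : h 9 23 24 = y := by
    have e0 := two 24 9 23 12 (by decide) (by decide) (by decide)
    have e1 := r1
    have e2 := H2 9 24 12
    have e3 := H1 9 23 24
    have e4 := H2 9 24 23
    grind
  have r5 : h 24 12 22 = -y := by
    have e0 := two 24 12 9 22 (by decide) (by decide) (by decide)
    have e1 := r1
    have e2 := H2 9 24 12
    have e3 := H1 24 9 12
    grind
  have r6 : h 22 23 12 = y := by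
    have e0 := two 12 23 21 22 (by decide) (by decide) (by decide)
    have e1 := r2
    have e2 := H1 12 21 23
    have e3 := H1 22 23 12
    have e4 := H2 22 12 23
    have e5 := H1 12 22 23
    grind
  have r7 : h 23 24 21 = y := by
    have e0 := two 21 23 12 24 (by decide) (by decide) (by decide)
    have e1 := r2
    have e2 := H2 12 21 23
    have e3 := H1 21 12 23
    have e4 := H1 23 24 21
    have e5 := H2 23 21 24
    grind
  have r8 : h 21 22 24 = -y := by
    have e0 := two 21 22 9 24 (by decide) (by decide) (by decide)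
    have e1 := r3
    have e2 := H2 9 21 22
    have e3 := H1 21 9 22
    grind
  have r9 : h 9 22 23 = y := by
    have e0 := two 22 9 21 23 (by decide) (by decide) (by decide)
    have e1 := r3
    have e2 := H1 9 21 22
    have e3 := H2 9 22 21
    have e4 := H2 9 22 23
    grind
  have y0 : y = 0 := by
    have e0 := two 23 24 9 21 (by decide) (by decide) (by decide)
    have e1 := r4
    have e2 := r7
    have e3 := H2 9 23 24
    have e4 := H1 23 9 24
    have e : y = -y := by grind
    have e' : (2 : ℂ) * y = 0 := by linear_combination e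
    simpa using e'
  refine ⟨?_, ?_⟩
  · intro t ht
    simp only [TS, List.mem_cons, List.not_mem_nil, or_false] at ht
    rcases ht with rfl | rfl | rfl | rfl | rfl | rfl | rfl | rfl | rfl | rfl | rfl | rfl | rfl | rfl | rfl | rfl | rfl | rfl | rfl | rfl | rfl | rfl | rfl | rfl | rfl | rfl | rfl | rfl | rfl
    · exact s4
    · exact s1
    · exact s5
    · exact s11
    · exact s18
    · exact s10
    · exact s25
    · exact s21
    · exact s26
    · exact s28
    · exact s27
    · exact s23
    · exact s14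
    · exact s7
    · exact s15
    · exact s22
    · exact s16
    · exact s8
    · exact s17
    · exact s20
    · exact s24
    · exact s19
    · exact s12
    · exact s0
    · exact s3
    · exact s9
    · exact s13
    · exact s6
    · exact s2
  · intro t ht
    simp only [TR, List.mem_cons, List.not_mem_nil, or_false] at ht
    rcases ht with rfl | rfl | rfl | rfl | rfl | rfl | rfl | rfl | rfl | rfl
    · exact r0.trans y0
    · exact r3.trans y0
    · exact r9.trans y0
    · exact r4.trans y0
    · exact r1.trans y0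
    · exact r2.trans (by rw [y0, neg_zero])
    · exact r8.trans (by rw [y0, neg_zero])
    · exact r6.trans y0
    · exact r7.trans y0
    · exact r5.trans (by rw [y0, neg_zero])

theorem local_unique (a b c : Fin 25) : h a b c = (sS a b c : ℂ) * h 12 13 18 := by
  obtain ⟨l1, l2⟩ := local_TL h H1 H2 H3 H4
  by_cases hc : c ∈ th a b
  · have key : ∀ t ∈ TL, h t.1 t.2.1 t.2.2 = (sS t.1 t.2.1 t.2.2 : ℂ) * h 12 13 18 := by
      intro t ht
      rcases List.mem_append.1 ht with ht | ht
      · rw [l1 t ht, sS_TS t ht, Int.cast_one, one_mul]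
      · rw [l2 t ht, sS_TR t ht, Int.cast_zero, zero_mul]
    obtain ⟨t, ht, hp⟩ := mem_th.1 hc
    have k := key t ht
    have s1 : ∀ a b c, (sS b a c : ℂ) = - sS a b c := fun a b c => by
      rw [sS_swap]; push_cast; ring
    have s2 : ∀ a b c, (sS a c b : ℂ) = - sS a b c := fun a b c => by
      rw [sS_swap']; push_cast; ring
    rcases hp with rfl | rfl | rfl | rfl | rfl | rfl
    · exact k
    · have k' : h b a c = (sS b a c : ℂ) * h 12 13 18 := k
      rw [H2 a b c, s1 a b c] at k'
      linear_combination -k'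
    · have k' : h c a b = (sS c a b : ℂ) * h 12 13 18 := k
      rw [H2 a c b, H1 a b c, s1 a c b, s2 a b c] at k'
      linear_combination k'
    · have k' : h c b a = (sS c b a : ℂ) * h 12 13 18 := k
      rw [H2 b c a, H1 b a c, H2 a b c, s1 b c a, s2 b a c, s1 a b c] at k'
      linear_combination -k'
    · have k' : h b c a = (sS b c a : ℂ) * h 12 13 18 := k
      rw [H1 b a c, H2 a b c, s2 b a c, s1 a b c] at k'
      linear_combination k'
    · have k' : h a c b = (sS a c b : ℂ) * h 12 13 18 := k
      rw [H1 a b c, s2 a b c] at k'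
      linear_combination -k'
  · rw [H3 a b c hc, sS_zero hc, Int.cast_zero, zero_mul]

end

end Pool.Agent.L0h7.TC
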