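import Pool.Agent.L0h7.TC.Stm

set_option autoImplicit false
set_option linter.unusedSectionVars false

/-! The 2-cycles of the complex of a cubic graph are the functions in the kernel of its adjacency
operator. -/

namespace Pool.Agent.L0h7.TC

open Matrix TH57.Thr.Ati Pool.Agent.R719.AT Pool.Agent.R472.Grid Pool.Agent.W649.ZL
open Pool.Agent.L0h7.CG (cover nullity vmat nullity_eq)

variable {G V : Type} [Group G] [Fintype V] [DecidableEq V] {n : V → Fin 3 → V}

/-- transport of base points -/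
def tr (γ : V → V → G) (w v : V) : G := if w = v then 1 else γ w v

/-- the transport from the centre of the chart to the fibre of a local vertex -/
def out (n : V → Fin 3 → V) (γ : V → V → G) (v : V) (l : Fin 25) : G :=
  (src l).elim 1 fun k => γ v (n v k)

/-- the coefficient of the surface at `v` -/
def c0 (n : V → Fin 3 → V) (j : (V × Fin 16) × (V × Fin 16) × (V × Fin 16)) (v : V) : ℤ :=
  (TS.map fun t => sg (phi n v t.1, phi n v t.2.1, phi n v t.2.2) j.1 j.2.1 j.2.2).sum

theorem GG_chart (hn : Nb n) {γ : V → V → G} (hγ : ∀ v w, γ w v = (γ v w)⁻¹) (v : V)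
    {a b c : Fin 25} (h : c ∈ th a b) :
    out n γ v a * GG γ (phi n v a) (phi n v b) = out n γ v b := by
  unfold GG out
  change _ * (if fib n v a = fib n v b then 1 else γ (fib n v a) (fib n v b)) = _
  rcases th_fib h with h1 | h1 | h1
  · cases h2 : src b with
    | none =>
      have e : fib n v a = fib n v b := by unfold fib; rw [h1, h2]
      rw [if_pos e, h1]; simp
    | some k =>
      have e1 : fib n v a = v := by unfold fib; rw [h1]; rfl
      have e2 : fib n v b = n v k := by unfold fib; rw [h2]; rfl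
      rw [e1, e2, if_neg (hn.ne v k).symm, h1]; simp
  · cases h2 : src a with
    | none =>
      have e : fib n v a = fib n v b := by unfold fib; rw [h1, h2]
      rw [if_pos e, h1]; simp
    | some k =>
      have e1 : fib n v b = v := by unfold fib; rw [h1]; rfl
      have e2 : fib n v a = n v k := by unfold fib; rw [h2]; rfl
      rw [e1, e2, if_neg (hn.ne v k), h1]
      simp only [Option.elim]
      rw [hγ v (n v k), mul_inv_cancel]
  · have e : fib n v a = fib n v b := by unfold fib; rw [h1]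
    rw [if_pos e, h1, mul_one]

theorem tr_out (hn : Nb n) {γ : V → V → G} (hγ : ∀ v w, γ w v = (γ v w)⁻¹) (v : V) (a : Fin 25) :
    tr γ (phi n v a).1 v * out n γ v a = 1 := by
  unfold tr out
  change (if fib n v a = v then 1 else γ (fib n v a) v) * _ = 1
  cases h2 : src a with
  | none =>
    have e1 : fib n v a = v := by unfold fib; rw [h2]; rfl
    rw [if_pos e1]; simp
  | some k =>
    have e1 : fib n v a = n v k := by unfold fib; rw [h2]; rfl
    rw [e1, if_neg (hn.ne v k)]
    simp only [Option.elim]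
    rw [hγ v (n v k), inv_mul_cancel]

theorem c0_chart {x y z : V × Fin 16} {v : V} (h : c0 n (x, y, z) v ≠ 0) :
    ∃ a b c, c ∈ th a b ∧ phi n v a = x ∧ phi n v b = y ∧ phi n v c = z := by
  have h1 : ∃ t ∈ TS, sg (phi n v t.1, phi n v t.2.1, phi n v t.2.2) x y z ≠ 0 := by
    by_contra hn
    push Not at hn
    apply h
    unfold c0
    apply List.sum_eq_zero
    intro s hs
    obtain ⟨t, ht, rfl⟩ := List.mem_map.1 hs
    exact hn t ht
  obtain ⟨t, ht, h2⟩ := h1
  have hp := sg_per h2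
  have hc : t.2.2 ∈ th t.1 t.2.1 := mem_th.2 ⟨t, List.mem_append_left _ ht, Or.inl rfl⟩
  unfold Per at hp
  simp only [Prod.mk.injEq] at hp
  rcases hp with ⟨rfl, rfl, rfl⟩ | ⟨rfl, rfl, rfl⟩ | ⟨rfl, rfl, rfl⟩ | ⟨rfl, rfl, rfl⟩ |
    ⟨rfl, rfl, rfl⟩ | ⟨rfl, rfl, rfl⟩
  · exact ⟨_, _, _, hc, rfl, rfl, rfl⟩
  · exact ⟨_, _, _, th_swap hc, rfl, rfl, rfl⟩
  · exact ⟨_, _, _, th_swap' (th_swap hc), rfl, rfl, rfl⟩
  · exact ⟨_, _, _, th_swap (th_swap' (th_swap hc)), rfl, rfl, rfl⟩
  · exact ⟨_, _, _, th_swap (th_swap' hc), rfl, rfl, rfl⟩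
  · exact ⟨_, _, _, th_swap' hc, rfl, rfl, rfl⟩

theorem c0_phi (hn : Nb n) (v : V) (a b c : Fin 25) :
    c0 n (phi n v a, phi n v b, phi n v c) v = sS a b c := by
  unfold c0 sS
  congr 1
  apply List.map_congr_left
  intro t _
  obtain ⟨p, q, r⟩ := t
  unfold sg
  simp only [Prod.mk.injEq, (phi_inj hn v).eq_iff]

/-- the chart of a triangle is unique -/
theorem chart_unique {v v' : V} {a b c a' b' c' : Fin 25} (h : c ∈ th a b)
    (ha : phi n v a = phi n v' a') (hb : phi n v b = phi n v' b')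
    (hc : phi n v c = phi n v' c') : v = v' := by
  rcases th_priv h with h1 | h1 | h1
  · exact (phi_priv h1 ha).1
  · exact (phi_priv h1 hb).1
  · exact (phi_priv h1 hc).1

theorem c0_other {v v' : V} {a b c : Fin 25} (h : c ∈ th a b) (hv : v' ≠ v) :
    c0 n (phi n v a, phi n v b, phi n v c) v' = 0 := by
  by_contra h0
  obtain ⟨a', b', c', _, ha, hb, hc⟩ := c0_chart h0
  exact hv (chart_unique h ha.symm hb.symm hc.symm).symm

theorem c0_swap (x y z : V × Fin 16) (v : V) : c0 n (y, x, z) v = - c0 n (x, y, z) v :=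
  sum_map_neg _ _ _ fun _ => sg_swap _ _ _ _

theorem c0_swap' (x y z : V × Fin 16) (v : V) : c0 n (x, z, y) v = - c0 n (x, y, z) v :=
  sum_map_neg _ _ _ fun _ => sg_swap' _ _ _ _

/-- the matrix of the restriction to one triangle of every surface -/
noncomputable def PP (G : Type) [Group G] (n : V → Fin 3 → V) :
    Matrix ((V × Fin 16) × (V × Fin 16) × (V × Fin 16)) V (MonoidAlgebra ℂ G) :=
  tm (fun v (_ : Unit) => (phi n v 12, phi n v 13, phi n v 18)) (fun _ _ => 1) (fun _ _ => 1)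

/-- the matrix of the extension -/
noncomputable def QQ (n : V → Fin 3 → V) (γ : V → V → G) :
    Matrix V ((V × Fin 16) × (V × Fin 16) × (V × Fin 16)) (MonoidAlgebra ℂ G) :=
  tm (fun _ v => v) (fun j v => tr γ j.1.1 v) (fun j v => c0 n j v)

theorem ac_PP (x : ((V × Fin 16) × (V × Fin 16) × (V × Fin 16)) × G → ℂ) (v : V) (g : G) :
    ac (PP G n) x (v, g) = x ((phi n v 12, phi n v 13, phi n v 18), g) := by
  have := ac_tm (fun v (_ : Unit) => (phi n v 12, phi n v 13, phi n v 18)) (fun _ _ => (1 : G))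
    (fun _ _ => 1) x v g
  rw [Finset.univ_unique, Finset.sum_singleton, mul_one, Int.cast_one, one_mul] at this
  exact this

theorem ac_QQ (γ : V → V → G) (y : V × G → ℂ) (p q r : V × Fin 16) (g : G) :
    ac (QQ n γ) y ((p, q, r), g) = ∑ v, (c0 n (p, q, r) v : ℂ) * y (v, g * tr γ p.1 v) :=
  ac_tm _ _ _ y (p, q, r) g

/-- sum of orientations over the third vertex -/
theorem sum_sg {X : Type} [Fintype X] [DecidableEq X] (t : X × X × X) (x y : X) :
    ∑ z, sg t x y z = ((if t.1 = x ∧ t.2.1 = y then 1 else 0) +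
      (if t.2.1 = x ∧ t.2.2 = y then 1 else 0) + (if t.2.2 = x ∧ t.1 = y then 1 else 0)) -
      ((if t.2.1 = x ∧ t.1 = y then 1 else 0) + (if t.2.2 = x ∧ t.2.1 = y then 1 else 0) +
        (if t.1 = x ∧ t.2.2 = y then 1 else 0)) := by
  obtain ⟨p, q, r⟩ := t
  unfold sg
  simp only [Finset.sum_sub_distrib, Finset.sum_add_distrib, Prod.mk.injEq]
  have k1 : ∀ (P : Prop) [Decidable P] (r : X), (∑ z, if P ∧ r = z then (1 : ℤ) else 0) =
      if P then 1 else 0 := by
    intro P _ r
    by_cases hP : P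
    · simp [hP]
    · simp [hP]
  have e1 : (∑ z, if p = x ∧ q = y ∧ r = z then (1 : ℤ) else 0) = if p = x ∧ q = y then 1 else 0 := by
    rw [← k1 _ r]
    exact Finset.sum_congr rfl fun z _ => if_congr (by tauto) rfl rfl
  have e2 : (∑ z, if p = y ∧ q = z ∧ r = x then (1 : ℤ) else 0) = if r = x ∧ p = y then 1 else 0 := by
    rw [← k1 _ q]
    exact Finset.sum_congr rfl fun z _ => if_congr (by tauto) rfl rfl
  have e3 : (∑ z, if p = z ∧ q = x ∧ r = y then (1 : ℤ) else 0) = if q = x ∧ r = y then 1 else 0 := by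
    rw [← k1 _ p]
    exact Finset.sum_congr rfl fun z _ => if_congr (by tauto) rfl rfl
  have e4 : (∑ z, if p = y ∧ q = x ∧ r = z then (1 : ℤ) else 0) = if q = x ∧ p = y then 1 else 0 := by
    rw [← k1 _ r]
    exact Finset.sum_congr rfl fun z _ => if_congr (by tauto) rfl rfl
  have e5 : (∑ z, if p = x ∧ q = z ∧ r = y then (1 : ℤ) else 0) = if p = x ∧ r = y then 1 else 0 := by
    rw [← k1 _ q]
    exact Finset.sum_congr rfl fun z _ => if_congr (by tauto) rfl rfl
  have e6 : (∑ z, if p = z ∧ q = y ∧ r = x then (1 : ℤ) else 0) = if r = x ∧ q = y then 1 else 0 := by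
    rw [← k1 _ p]
    exact Finset.sum_congr rfl fun z _ => if_congr (by tauto) rfl rfl
  rw [e1, e2, e3, e4, e5, e6]
  ring

/-- the boundary of the pair of pants -/
theorem bd_TS (F : Fin 25 → Fin 25 → ℤ) : (TS.map fun t => (F t.1 t.2.1 + F t.2.1 t.2.2 +
    F t.2.2 t.1) - (F t.2.1 t.1 + F t.2.2 t.2.1 + F t.1 t.2.2)).sum =
    ((F 0 1 + F 1 2 + F 2 0) - (F 1 0 + F 2 1 + F 0 2)) +
    ((F 3 4 + F 4 5 + F 5 3) - (F 4 3 + F 5 4 + F 3 5)) +
    ((F 6 7 + F 7 8 + F 8 6) - (F 7 6 + F 8 7 + F 6 8)) := by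
  simp only [TS, List.map_cons, List.map_nil, List.sum_cons, List.sum_nil]
  ring

end Pool.Agent.L0h7.TC
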