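import Pool.Agent.L0h7.TC.Maps

set_option autoImplicit false
set_option linter.unusedSectionVars false

/-! The second Betti number of the complex of a cubic graph is the nullity of the graph. -/

namespace Pool.Agent.L0h7.TC

open Matrix TH57.Thr.Ati Pool.Agent.R719.AT Pool.Agent.R472.Grid Pool.Agent.W649.ZL
open Pool.Agent.L0h7.CG (cover nullity vmat nullity_eq)

/-- Betti numbers and kernel dimensions -/
theorem betti_equiv {G X W : Type} [Group G] [Fintype X] [DecidableEq X] [Fintype W]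
    [DecidableEq W] (K : Set (Set X)) (γ : X → X → G) (B : Matrix W W (MonoidAlgebra ℂ G))
    (P : Matrix (X × X × X) W (MonoidAlgebra ℂ G)) (Q : Matrix W (X × X × X) (MonoidAlgebra ℂ G))
    (h1 : ∀ x, IsCyc K γ x → ac B (ac P x) = 0) (h2 : ∀ x, IsCyc K γ x → ac Q (ac P x) = x)
    (h3 : ∀ y, ac B y = 0 → IsCyc K γ (ac Q y)) (h4 : ∀ y, ac B y = 0 → ac P (ac Q y) = y) :
    betti2 K γ = kap B := by
  rw [betti_eq]
  exact kap_equiv (zm K γ) B P Q (fun x hx => h1 x ((zm_iff K γ x).1 hx))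
    (fun x hx => h2 x ((zm_iff K γ x).1 hx)) (fun y hy => (zm_iff K γ _).2 (h3 y hy)) h4

variable {G V : Type} [Group G] [Fintype V] [DecidableEq V] {n : V → Fin 3 → V}

/-- the orientation of an edge of a circle -/
def ee (i j : Fin 16) : ℤ :=
  ((if i = 0 ∧ j = 1 then 1 else 0) + (if i = 1 ∧ j = 2 then 1 else 0) +
    (if i = 2 ∧ j = 0 then 1 else 0)) - ((if i = 1 ∧ j = 0 then 1 else 0) +
    (if i = 2 ∧ j = 1 then 1 else 0) + (if i = 0 ∧ j = 2 then 1 else 0))

theorem edge_sum (w : V) (x y : V × Fin 16) :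
    ((((if (w, (0 : Fin 16)) = x ∧ (w, (1 : Fin 16)) = y then 1 else 0) +
      (if (w, (1 : Fin 16)) = x ∧ (w, (2 : Fin 16)) = y then 1 else 0) +
      (if (w, (2 : Fin 16)) = x ∧ (w, (0 : Fin 16)) = y then 1 else 0)) -
      ((if (w, (1 : Fin 16)) = x ∧ (w, (0 : Fin 16)) = y then 1 else 0) +
      (if (w, (2 : Fin 16)) = x ∧ (w, (1 : Fin 16)) = y then 1 else 0) +
      (if (w, (0 : Fin 16)) = x ∧ (w, (2 : Fin 16)) = y then 1 else 0)) : ℤ)) =
    if w = x.1 ∧ x.1 = y.1 then ee x.2 y.2 else 0 := by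
  obtain ⟨u, i⟩ := x
  obtain ⟨u', j⟩ := y
  simp only [Prod.mk.injEq]
  by_cases h1 : w = u
  · subst h1
    by_cases h2 : w = u'
    · subst h2
      simp only [true_and, and_self, if_true, ee, eq_comm]
    · simp [h2]
  · simp [h1]

theorem sum_list {X α : Type} [Fintype X] (l : List α) (f : X → α → ℤ) :
    ∑ z, (l.map (f z)).sum = (l.map fun t => ∑ z, f z t).sum := by
  induction l with
  | nil => simp
  | cons a l ih => simp only [List.map_cons, List.sum_cons, Finset.sum_add_distrib, ih]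

theorem sum_c0 (n : V → Fin 3 → V) (v : V) (x y : V × Fin 16) :
    ∑ z, c0 n (x, y, z) v = ∑ k, if n v k = x.1 ∧ x.1 = y.1 then ee x.2 y.2 else 0 := by
  unfold c0
  rw [sum_list]
  simp only [sum_sg]
  have h := bd_TS (fun p q => if phi n v p = x ∧ phi n v q = y then (1 : ℤ) else 0)
  have e0 : phi n v 0 = (n v 0, 0) := rfl
  have e1 : phi n v 1 = (n v 0, 1) := rfl
  have e2 : phi n v 2 = (n v 0, 2) := rfl
  have e3 : phi n v 3 = (n v 1, 0) := rfl
  have e4 : phi n v 4 = (n v 1, 1) := rfl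
  have e5 : phi n v 5 = (n v 1, 2) := rfl
  have e6 : phi n v 6 = (n v 2, 0) := rfl
  have e7 : phi n v 7 = (n v 2, 1) := rfl
  have e8 : phi n v 8 = (n v 2, 2) := rfl
  rw [e0, e1, e2, e3, e4, e5, e6, e7, e8, edge_sum, edge_sum, edge_sum] at h
  rw [Fin.sum_univ_three, ← h]

theorem vmat_tm (Q : SimpleGraph V) [DecidableRel Q.Adj] (γ : V → V → G)
    (hγ : ∀ v w, γ w v = (γ v w)⁻¹) : vmat Q γ =
      tm (fun _ v => v) (fun w v => γ w v) (fun w v => if Q.Adj w v then 1 else 0) := by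
  classical
  ext1 k j
  unfold vmat tm
  rw [Matrix.of_apply, Matrix.of_apply, Finset.sum_ite_eq', if_pos (Finset.mem_univ k)]
  change _ = MonoidAlgebra.single (γ j k)⁻¹ (((if Q.Adj j k then 1 else 0 : ℤ)) : ℂ)
  by_cases h : Q.Adj k j
  · rw [if_pos h, if_pos h.symm, Int.cast_one, hγ j k]
  · rw [if_neg h, if_neg (fun h' : Q.Adj j k => h h'.symm), Int.cast_zero,
      MonoidAlgebra.single_zero]

theorem ac_vmat (Q : SimpleGraph V) [DecidableRel Q.Adj] (γ : V → V → G)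
    (hγ : ∀ v w, γ w v = (γ v w)⁻¹) (y : V × G → ℂ) (w : V) (g : G) :
    ac (vmat Q γ) y (w, g) = ∑ v, if Q.Adj w v then y (v, g * γ w v) else 0 := by
  rw [vmat_tm Q γ hγ, ac_tm]
  refine Finset.sum_congr rfl fun v _ => ?_
  split_ifs
  · rw [Int.cast_one, one_mul]
  · rw [Int.cast_zero, zero_mul]

/-- boundary of the extension -/
theorem sum_QQ (hn : Nb n) (Q : SimpleGraph V) (hQ : ∀ v w, Q.Adj v w ↔ ∃ k, n v k = w)
    (γ : V → V → G) (hγ : ∀ v w, γ w v = (γ v w)⁻¹) (y : V × G → ℂ) (p q : V × Fin 16) (g : G) :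
    ∑ z, ac (QQ n γ) y ((p, q, z), g) =
      (if p.1 = q.1 then (ee p.2 q.2 : ℂ) else 0) * ac (vmat Q γ) y (p.1, g) := by
  classical
  simp only [ac_QQ]
  rw [Finset.sum_comm, ac_vmat Q γ hγ, Finset.mul_sum]
  refine Finset.sum_congr rfl fun v _ => ?_
  rw [← Finset.sum_mul]
  have h1 : (∑ z, (c0 n (p, q, z) v : ℂ)) = ((∑ z, c0 n (p, q, z) v : ℤ) : ℂ) := by
    push_cast; rfl
  rw [h1, sum_c0]
  by_cases hA : Q.Adj p.1 v
  · obtain ⟨k, hk⟩ := (hQ v p.1).1 hA.symm
    rw [if_pos hA, Finset.sum_eq_single k]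
    · have h2 : tr γ p.1 v = γ p.1 v := by
        unfold tr
        rw [if_neg hA.ne]
      rw [h2]
      by_cases hpq : p.1 = q.1
      · rw [if_pos ⟨hk, hpq⟩, if_pos hpq]
      · rw [if_neg (fun h => hpq h.2), if_neg hpq, Int.cast_zero]
    · intro l _ hl
      rw [if_neg]
      intro h
      exact hl (hn.inj v (h.1.trans hk.symm))
    · intro h; exact absurd (Finset.mem_univ _) h
  · rw [if_neg hA, mul_zero]
    rw [Finset.sum_eq_zero, Int.cast_zero, zero_mul]
    intro k _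
    rw [if_neg]
    intro h
    exact hA ((hQ v p.1).2 ⟨k, h.1⟩).symm

theorem QQ_cyc (hn : Nb n) (Q : SimpleGraph V) (hQ : ∀ v w, Q.Adj v w ↔ ∃ k, n v k = w)
    (γ : V → V → G) (hγ : ∀ v w, γ w v = (γ v w)⁻¹) (y : V × G → ℂ)
    (hy : ac (vmat Q γ) y = 0) : IsCyc (KK n) (GG γ) (ac (QQ n γ) y) := by
  refine ⟨?_, ?_, ?_, ?_⟩
  · intro p q r g h
    rw [ac_QQ]
    refine Finset.sum_eq_zero fun v _ => ?_
    by_cases h0 : c0 n (p, q, r) v = 0
    · rw [h0, Int.cast_zero, zero_mul]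
    · obtain ⟨a, b, c, hc, ha, hb, hd⟩ := c0_chart h0
      exact absurd ((mem_KK hn).2 ⟨v, a, b, c, hc, ha, hb, hd⟩) h
  · intro p q r g
    rw [ac_QQ, ac_QQ, ← Finset.sum_neg_distrib]
    refine Finset.sum_congr rfl fun v _ => ?_
    rw [c0_swap']
    push_cast
    ring
  · intro p q r g
    rw [ac_QQ, ac_QQ, ← Finset.sum_neg_distrib]
    refine Finset.sum_congr rfl fun v _ => ?_
    rw [c0_swap]
    by_cases h0 : c0 n (p, q, r) v = 0
    · rw [h0]; simp
    · obtain ⟨a, b, c, hc, rfl, rfl, rfl⟩ := c0_chart h0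
      have e : g * GG γ (phi n v a) (phi n v b) * tr γ (phi n v b).1 v =
          g * tr γ (phi n v a).1 v := by
        have h1 := GG_chart hn hγ v hc
        have h2 := tr_out hn hγ v a
        have h3 := tr_out hn hγ v b
        have h4 : tr γ (phi n v b).1 v = (out n γ v b)⁻¹ := eq_inv_of_mul_eq_one_left h3
        have h5 : tr γ (phi n v a).1 v = (out n γ v a)⁻¹ := eq_inv_of_mul_eq_one_left h2
        rw [h4, h5, ← h1]
        group
      rw [e]
      push_cast
      ring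
  · intro p q g
    rw [sum_QQ hn Q hQ γ hγ, hy]
    exact mul_zero _

/-- cycles in a chart -/
theorem cyc_chart (hn : Nb n) (γ : V → V → G) (hγ : ∀ v w, γ w v = (γ v w)⁻¹)
    {x : ((V × Fin 16) × (V × Fin 16) × (V × Fin 16)) × G → ℂ} (hx : IsCyc (KK n) (GG γ) x)
    (v : V) (a b c : Fin 25) (g : G) :
    x ((phi n v a, phi n v b, phi n v c), g * out n γ v a) =
      (sS a b c : ℂ) * x ((phi n v 12, phi n v 13, phi n v 18), g) := by
  obtain ⟨h1, h2, h3, h4⟩ := hx
  have H3 : ∀ a b c, c ∉ th a b →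
      x ((phi n v a, phi n v b, phi n v c), g * out n γ v a) = 0 := by
    intro a b c hc
    apply h1
    intro hK
    obtain ⟨v', a', b', c', h, ha, hb, hd⟩ := (mem_KK hn).1 hK
    have e := chart_unique h ha hb hd
    subst e
    have ea := phi_inj hn v' ha
    have eb := phi_inj hn v' hb
    have ec := phi_inj hn v' hd
    subst ea; subst eb; subst ec
    exact hc h
  have key := local_unique
    (fun a b c => x ((phi n v a, phi n v b, phi n v c), g * out n γ v a))
    (fun a b c => h2 _ _ _ _)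
    (fun a b c => by
      by_cases hc : c ∈ th a b
      · have h5 := h3 (phi n v a) (phi n v b) (phi n v c) (g * out n γ v a)
        rw [mul_assoc, GG_chart hn hγ v hc] at h5
        exact h5
      · rw [H3 a b c hc, H3 b a c (fun h => hc (th_swap h)), neg_zero])
    H3
    (fun a b ha => by
      have h5 := h4 (phi n v a) (phi n v b) (g * out n γ v a)
      rw [← h5]
      refine Fintype.sum_of_injective (phi n v) (phi_inj hn v) _ _ ?_ (fun _ => rfl)
      intro z hz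
      apply h1
      intro hK
      obtain ⟨v', a', b', c', h, ha', hb', hd'⟩ := (mem_KK hn).1 hK
      obtain ⟨rfl, rfl⟩ := phi_priv ha ha'.symm
      exact hz ⟨c', hd'⟩)
    a b c
  have e : out n γ v 12 = 1 := rfl
  have key' : x ((phi n v a, phi n v b, phi n v c), g * out n γ v a) =
      (sS a b c : ℂ) * x ((phi n v 12, phi n v 13, phi n v 18), g * out n γ v 12) := key
  rwa [e, mul_one] at key'

theorem QQ_PP (hn : Nb n) (γ : V → V → G) (hγ : ∀ v w, γ w v = (γ v w)⁻¹)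
    {x : ((V × Fin 16) × (V × Fin 16) × (V × Fin 16)) × G → ℂ} (hx : IsCyc (KK n) (GG γ) x) :
    ac (QQ n γ) (ac (PP G n) x) = x := by
  funext ⟨⟨p, q, r⟩, g⟩
  rw [ac_QQ]
  simp only [ac_PP]
  by_cases hK : ({p, q, r} : Set (V × Fin 16)) ∈ KK n
  · obtain ⟨v, a, b, c, hc, rfl, rfl, rfl⟩ := (mem_KK hn).1 hK
    rw [Finset.sum_eq_single v]
    · rw [c0_phi hn, ← cyc_chart hn γ hγ hx v a b c, mul_assoc, tr_out hn hγ, mul_one]
    · intro v' _ hv'
      rw [c0_other hc hv', Int.cast_zero, zero_mul]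
    · intro h; exact absurd (Finset.mem_univ _) h
  · rw [hx.1 p q r g hK]
    refine Finset.sum_eq_zero fun v _ => ?_
    by_cases h0 : c0 n (p, q, r) v = 0
    · rw [h0, Int.cast_zero, zero_mul]
    · obtain ⟨a, b, c, hc, ha, hb, hd⟩ := c0_chart h0
      exact absurd ((mem_KK hn).2 ⟨v, a, b, c, hc, ha, hb, hd⟩) hK

theorem PP_QQ (hn : Nb n) (γ : V → V → G) (y : V × G → ℂ) :
    ac (PP G n) (ac (QQ n γ) y) = y := by
  funext ⟨v, g⟩
  rw [ac_PP, ac_QQ, Finset.sum_eq_single v]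
  · have hT : ((12, 13, 18) : Fin 25 × Fin 25 × Fin 25) ∈ TS := by decide
    have h1 : sS 12 13 18 = 1 := sS_TS _ hT
    have h2 : tr γ (phi n v 12).1 v = 1 := if_pos rfl
    rw [c0_phi hn, h1, h2, Int.cast_one, one_mul, mul_one]
  · intro v' _ hv'
    have hT : ((12, 13, 18) : Fin 25 × Fin 25 × Fin 25) ∈ TS := by decide
    have hc : (18 : Fin 25) ∈ th 12 13 :=
      mem_th.2 ⟨_, List.mem_append_left _ hT, Or.inl rfl⟩
    rw [c0_other hc hv', Int.cast_zero, zero_mul]
  · intro h; exact absurd (Finset.mem_univ _) h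

/-- The second Betti number of the cover of the complex is the nullity of the cover of the graph. -/
theorem betti_nullity (hn : Nb n) (Q : SimpleGraph V) (hQ : ∀ v w, Q.Adj v w ↔ ∃ k, n v k = w)
    (γ : V → V → G) (hγ : ∀ v w, γ w v = (γ v w)⁻¹) :
    betti2 (KK n) (GG γ) = nullity (cover Q γ) := by
  rw [nullity_eq Q γ hγ]
  refine betti_equiv (KK n) (GG γ) (vmat Q γ) (PP G n) (QQ n γ) ?_ ?_ ?_ ?_
  · intro x hc
    funext ⟨w, g⟩
    have h1 := sum_QQ hn Q hQ γ hγ (ac (PP G n) x) (w, 0) (w, 1) g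
    rw [QQ_PP hn γ hγ hc, hc.2.2.2, if_pos rfl] at h1
    have h2 : ee 0 1 = 1 := by decide
    rw [h2, Int.cast_one, one_mul] at h1
    exact h1.symm
  · intro x hx
    exact QQ_PP hn γ hγ hx
  · intro y hy
    exact QQ_cyc hn Q hQ γ hγ y hy
  · intro y _
    exact PP_QQ hn γ y

end Pool.Agent.L0h7.TC
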