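import Pool.Agent.L0h7.TC.Chart

set_option autoImplicit false

/-! Statements about the complex of a cubic graph. -/

namespace Pool.Agent.L0h7.TC

/-- the graph of the edges of the triangles of `K` -/
def edgeGraph {X : Type} (K : Set (Set X)) : SimpleGraph X where
  Adj u v := u ≠ v ∧ ∃ w, ({u, v, w} : Set X) ∈ K
  symm := ⟨fun u v h => ⟨h.1.symm, by
    obtain ⟨w, hw⟩ := h.2
    exact ⟨w, by rw [Set.insert_comm]; exact hw⟩⟩⟩
  loopless := ⟨fun _ h => h.1 rfl⟩

/-- the 1-skeleton of the cover of `K` with voltages `γ` is `CG.cover (edgeGraph K) γ` -/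
def GG {G V : Type} [Group G] [DecidableEq V] (γ : V → V → G) (x y : V × Fin 16) : G :=
  if x.1 = y.1 then 1 else γ x.1 y.1

/-- every edge of the complex lies in two or three triangles -/
def S_DEG : Prop := ∀ (V : Type) [Fintype V] [DecidableEq V] (n : V → Fin 3 → V), Nb n →
  ∀ x y z : V × Fin 16, ({x, y, z} : Set (V × Fin 16)) ∈ KK n →
    2 ≤ {w | ({x, y, w} : Set (V × Fin 16)) ∈ KK n}.ncard ∧
      {w | ({x, y, w} : Set (V × Fin 16)) ∈ KK n}.ncard ≤ 3

/-- the covers of the complex are connected if the covers of the graph are -/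
def S_CONN : Prop := ∀ (G V : Type) [Group G] [Fintype V] [DecidableEq V] (n : V → Fin 3 → V)
  (Q : SimpleGraph V) (γ : V → V → G), Nb n → (∀ v w, Q.Adj v w ↔ ∃ k, n v k = w) →
    (∀ v w, γ w v = (γ v w)⁻¹) → (CG.cover Q γ).Connected →
      (CG.cover (edgeGraph (KK n)) (GG γ)).Connected

/-- the complex is connected if the graph is -/
def S_CONN0 : Prop := ∀ (V : Type) [Fintype V] [DecidableEq V] (n : V → Fin 3 → V)
  (Q : SimpleGraph V), Nb n → (∀ v w, Q.Adj v w ↔ ∃ k, n v k = w) → Q.Connected →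
      (edgeGraph (KK n)).Connected

end Pool.Agent.L0h7.TC
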