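import Pool.Agent.L0h7.CG.App

set_option autoImplicit false
set_option linter.unusedSectionVars false

/-! Matrices given by lists of terms, and the comparison of kernel dimensions. -/

namespace Pool.Agent.L0h7.TC

open Matrix TH57.Thr.Ati Pool.Agent.R719.AT Pool.Agent.R472.Grid Pool.Agent.W649.ZL
open Pool.Agent.L0h7.CG (Zc)

variable {G : Type} [Group G] {K L K' L' Θ : Type} [Fintype K] [Fintype L] [Fintype K']
  [Fintype L'] [DecidableEq K] [DecidableEq L] [DecidableEq K'] [DecidableEq L'] [Fintype Θ]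

/-- the action of a matrix on functions -/
noncomputable def ac (A : Matrix K L (MonoidAlgebra ℂ G)) (x : K × G → ℂ) (p : L × G) : ℂ :=
  ∑ k : K, ∑ h ∈ (A k p.1).coeff.support, x (k, p.2 * h⁻¹) * (A k p.1).coeff h

theorem ac_cv (A : Matrix K L (MonoidAlgebra ℂ G)) (x : K × G → ℂ) (j : L) (g : G) :
    ac A x (j, g) = ∑ k, cv (A k j) (fun v => x (k, v⁻¹)) g⁻¹ := by
  unfold ac cv Finsupp.sum
  refine Finset.sum_congr rfl fun k _ => Finset.sum_congr rfl fun h _ => ?_
  change x (k, g * h⁻¹) * (A k j).coeff h = (A k j).coeff h * x (k, (h * g⁻¹)⁻¹)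
  rw [_root_.mul_inv_rev, inv_inv, mul_comm]

theorem Rop_ac (A : Matrix K L (MonoidAlgebra ℂ G)) (F : EE G K) (u : G) (j : L) :
    Rop A F (u, j) = ac A (fun p => F (p.2⁻¹, p.1)) (j, u⁻¹) := by
  rw [Rop_apply, ac_cv, inv_inv]
  simp only [inv_inv]

theorem kap_equiv (A : Matrix K L (MonoidAlgebra ℂ G)) (B : Matrix K' L' (MonoidAlgebra ℂ G))
    (P : Matrix K K' (MonoidAlgebra ℂ G)) (Q : Matrix K' K (MonoidAlgebra ℂ G))
    (h1 : ∀ x : K × G → ℂ, ac A x = 0 → ac B (ac P x) = 0)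
    (h2 : ∀ x : K × G → ℂ, ac A x = 0 → ac Q (ac P x) = x)
    (h3 : ∀ y : K' × G → ℂ, ac B y = 0 → ac A (ac Q y) = 0)
    (h4 : ∀ y : K' × G → ℂ, ac B y = 0 → ac P (ac Q y) = y) : kap A = kap B := by
  have br : ∀ {K L : Type} [Fintype K] [Fintype L] [DecidableEq K] [DecidableEq L]
      (A : Matrix K L (MonoidAlgebra ℂ G)) (F : EE G K),
      (fun p : L × G => Rop A F (p.2⁻¹, p.1)) = ac A (fun p => F (p.2⁻¹, p.1)) := by
    intro K L _ _ _ _ A F
    funext ⟨j, g⟩
    rw [Rop_ac, inv_inv]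
  have br0 : ∀ {K L : Type} [Fintype K] [Fintype L] [DecidableEq K] [DecidableEq L]
      (A : Matrix K L (MonoidAlgebra ℂ G)) (F : EE G K), Rop A F = 0 ↔
        ac A (fun p => F (p.2⁻¹, p.1)) = 0 := by
    intro K L _ _ _ _ A F
    rw [← br]
    constructor
    · intro h; rw [h]; rfl
    · intro h
      ext ⟨u, j⟩
      have := congrFun h (j, u⁻¹)
      simpa using this
  have inj : ∀ {K : Type} (F F' : EE G K), (fun p : K × G => F (p.2⁻¹, p.1)) =
      (fun p : K × G => F' (p.2⁻¹, p.1)) → F = F' := by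
    intro K F F' h
    ext ⟨u, j⟩
    have := congrFun h (j, u⁻¹)
    simpa using this
  have hrn := rank_nullity (Rop P) (Rop_eqv P) (inv_ker (Rop A) (Rop_eqv _))
    (ContinuousLinearMap.isClosed_ker (Rop A))
  have hQP : ∀ F : EE G K, Rop A F = 0 → Rop Q (Rop P F) = F := by
    intro F hF
    apply inj
    rw [br, br]
    exact h2 _ ((br0 A F).1 hF)
  have e1 : LinearMap.ker (Rop A : EE G K →ₗ[ℂ] EE G L)
      ⊓ LinearMap.ker (Rop P : EE G K →ₗ[ℂ] EE G K') = ⊥ := by
    rw [eq_bot_iff]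
    rintro F ⟨hA, hP⟩
    have hA' : Rop A F = 0 := hA
    have hP' : Rop P F = 0 := hP
    rw [Submodule.mem_bot, ← hQP F hA', hP', map_zero]
  have e2 : (LinearMap.ker (Rop A : EE G K →ₗ[ℂ] EE G L)).map
      (Rop P : EE G K →ₗ[ℂ] EE G K') = LinearMap.ker (Rop B : EE G K' →ₗ[ℂ] EE G L') := by
    ext F
    constructor
    · rintro ⟨F', hF', rfl⟩
      have h : Rop A F' = 0 := hF'
      change Rop B (Rop P F') = 0
      rw [br0, br]
      exact h1 _ ((br0 A F').1 h)
    · intro hF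
      have h : Rop B F = 0 := hF
      refine ⟨Rop Q F, ?_, ?_⟩
      · change Rop A (Rop Q F) = 0
        rw [br0, br]
        exact h3 _ ((br0 B F).1 h)
      · change Rop P (Rop Q F) = F
        apply inj
        rw [br, br]
        exact h4 _ ((br0 B F).1 h)
  rw [e1, e2, vd_bot, zero_add] at hrn
  exact hrn

/-- the matrix with the terms `c j τ` in the row `row j τ`, shifted by `s j τ` -/
noncomputable def tm (row : L → Θ → K) (s : L → Θ → G) (c : L → Θ → ℤ) :
    Matrix K L (MonoidAlgebra ℂ G) :=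
  Matrix.of fun k j => ∑ τ, if row j τ = k then MonoidAlgebra.single (s j τ)⁻¹ ((c j τ : ℤ) : ℂ)
    else 0

theorem ac_tm (row : L → Θ → K) (s : L → Θ → G) (c : L → Θ → ℤ) (x : K × G → ℂ) (j : L) (g : G) :
    ac (tm row s c) x (j, g) = ∑ τ, (c j τ : ℂ) * x (row j τ, g * s j τ) := by
  rw [ac_cv]
  unfold tm
  simp only [Matrix.of_apply, cv_sum]
  rw [Finset.sum_comm]
  refine Finset.sum_congr rfl fun τ _ => ?_
  rw [Finset.sum_eq_single (row j τ)]
  · rw [if_pos rfl, cv_single, _root_.mul_inv_rev, inv_inv, inv_inv]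
  · intro k _ hk
    rw [if_neg (fun h => hk h.symm), cv_zero]
  · intro h; exact absurd (Finset.mem_univ _) h

theorem tm_int (row : L → Θ → K) (s : L → Θ → G) (c : L → Θ → ℤ) : Zc (tm row s c) := by
  classical
  intro k j g
  unfold tm
  rw [Matrix.of_apply]
  have : ∀ t : Finset Θ, ∃ z : ℤ, (∑ τ ∈ t, if row j τ = k then
      MonoidAlgebra.single (s j τ)⁻¹ ((c j τ : ℤ) : ℂ) else 0 : MonoidAlgebra ℂ G).coeff g = z := by
    intro t
    induction t using Finset.induction_on with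
    | empty => exact ⟨0, by simp⟩
    | insert a t ha ih =>
      obtain ⟨z, hz⟩ := ih
      rw [Finset.sum_insert ha, MonoidAlgebra.coeff_add, Finsupp.add_apply, hz]
      by_cases h : row j a = k
      · rw [if_pos h, MonoidAlgebra.coeff_single, Finsupp.single_apply]
        by_cases h2 : (s j a)⁻¹ = g
        · rw [if_pos h2]; exact ⟨c j a + z, by push_cast; ring⟩
        · rw [if_neg h2]; exact ⟨z, by ring⟩
      · rw [if_neg h]; exact ⟨z, by simp⟩
  exact this _

theorem kerC_ac (A : Matrix K L (MonoidAlgebra ℂ G)) :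
    kerC A = {x : lp (fun _ : K × G => ℂ) 2 | ac A x = 0} := by
  ext x
  constructor
  · intro h; funext ⟨j, g⟩; exact h j g
  · intro h j g; exact congrFun h (j, g)

end Pool.Agent.L0h7.TC
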